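import Mathlib

/-!
# Star bodies with homothetic sections: definitions and targets

`F`, `G` are the gauge functions of two star bodies with the origin in the interior. All planar
sections through the origin are homothetic (`Planar F G`). See the blueprint
`H63_Star_blueprint.md` in the team store for the mathematics of every target.
-/

namespace Pool.Agent.H63.Star

open Set Filter Topology
open scoped RealInnerProductSpace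

section Defs

variable {E : Type*} [NormedAddCommGroup E] [NormedSpace ℝ E]

/-- The gauge function of a star body with the origin in its interior. -/
structure IsGauge (F : E → ℝ) : Prop where
  cont : Continuous F
  hom : ∀ (t : ℝ) (x : E), 0 ≤ t → F (t • x) = t * F x
  pos : ∀ x : E, x ≠ 0 → 0 < F x

/-- `{F ≤ 1} ∩ S = x + l • ({G ≤ 1} ∩ S)`, with `x ∈ S` and `l > 0`. -/
def Rel (F G : E → ℝ) (S : Submodule ℝ E) (x : E) (l : ℝ) : Prop :=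
  x ∈ S ∧ 0 < l ∧ ∀ z ∈ S, (F (x + l • z) ≤ 1 ↔ G z ≤ 1)

/-- All two-dimensional sections through the origin are homothetic. -/
def Planar (F G : E → ℝ) : Prop :=
  ∀ S : Submodule ℝ E, Module.finrank ℝ S = 2 → ∃ (x : E) (l : ℝ), Rel F G S x l

open Classical in
/-- The translation part of the homothety for the plane spanned by `a`, `b`. -/
noncomputable def ctr (F G : E → ℝ) (a b : E) : E :=
  if h : ∃ p : E × ℝ, Rel F G (Submodule.span ℝ {a, b}) p.1 p.2 then h.choose.1 else 0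

open Classical in
/-- The ratio of the homothety for the plane spanned by `a`, `b`. -/
noncomputable def rat (F G : E → ℝ) (a b : E) : ℝ :=
  if h : ∃ p : E × ℝ, Rel F G (Submodule.span ℝ {a, b}) p.1 p.2 then h.choose.2 else 1

end Defs

/-! ### Abstract targets (independent of the geometry) -/

/-- **B. Core extremal theorem.** `r` is the ratio of the gauges in an affine chart `X`,
`Cen y d` says that the plane of the line `y + ℝ d` is centred at `y`. -/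
def CoreStmt : Prop :=
  ∀ (X : Type) [NormedAddCommGroup X] [InnerProductSpace ℝ X] [FiniteDimensional ℝ X]
    (r : X → ℝ) (Cen : X → X → Prop) (m c₀ R : ℝ),
    2 ≤ Module.finrank ℝ X → Continuous r →
    (∀ (y d : ℕ → X) (y₀ d₀ : X), Tendsto y atTop (𝓝 y₀) → Tendsto d atTop (𝓝 d₀) → d₀ ≠ 0 →
      (∀ n, Cen (y n) (d n)) → Cen y₀ d₀) →
    (∀ (y d : X) (t : ℝ), t ≠ 0 → Cen y d → Cen y (t • d)) →
    (∀ (y d : X) (t : ℝ), d ≠ 0 → t ≠ 0 → Cen y d → Cen (y + t • d) d →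
      ∀ s : ℝ, r (y + s • d) = c₀) →
    (∀ (y d n : X) (η : ℝ), 0 < η → n ≠ 0 → d ≠ 0 → ⟪n, d⟫ = 0 →
      (∀ h : X, ‖h‖ < η → r y + ⟪n, h⟫ ≤ r (y + h)) → Cen y d) →
    (∀ (y d n : X) (η : ℝ), 0 < η → n ≠ 0 → d ≠ 0 → ⟪n, d⟫ = 0 →
      (∀ h : X, ‖h‖ < η → r (y + h) ≤ r y + ⟪n, h⟫) → Cen y d) →
    (∀ y, m ≤ r y) → (∃ y, r y = m) → (∀ y, R < ‖y‖ → m < r y) → m < c₀ →
    (∃ y, ∀ d, d ≠ 0 → Cen y d) ∨
    (∃ (y₀ : X) (ε c : ℝ), 0 < ε ∧ (∀ y ∈ Metric.ball y₀ ε, r y = c) ∧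
      ∀ y ∈ Metric.ball y₀ ε, ∀ d, d ≠ 0 → ∃ s : ℝ, r (y + s • d) ≠ c₀)

/-- **C2. Ridge lemma.** `γ p w = 0` says that the line `p + ℝ w` is centred at `p`. -/
def RidgeStmt : Prop :=
  ∀ (X : Type) [NormedAddCommGroup X] [InnerProductSpace ℝ X] [FiniteDimensional ℝ X]
    (f : X → ℝ) (γ : X → X → ℝ) (ρ κ τ₀ : ℝ),
    Continuous f → 0 < ρ → 0 < κ → κ ≤ 1 → 0 < τ₀ →
    (∀ p w, ‖p‖ < ρ → w ≠ 0 → ContinuousAt (fun q : X × X => γ q.1 q.2) (p, w)) →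
    (∀ p w (t : ℝ), ‖p‖ < ρ → w ≠ 0 → t ≠ 0 → γ p w = 0 → γ p (t • w) = 0) →
    (∀ p w (t : ℝ), ‖p‖ < ρ → ‖p + t • w‖ < ρ → w ≠ 0 → t ≠ 0 → γ p w = 0 →
      γ (p + t • w) w ≠ 0) →
    (∀ p w, ‖p‖ < ρ → w ≠ 0 → γ p w = 0 → ∀ δ > 0,
      (∃ τ : ℝ, |τ| < δ ∧ 0 < γ (p + τ • w) w) ∧ ∃ τ : ℝ, |τ| < δ ∧ γ (p + τ • w) w < 0) →
    (∀ p w, ‖p‖ < ρ → w ≠ 0 → γ p w = 0 → ∀ t τ : ℝ, 0 < t → 0 < τ → t * ‖w‖ ≤ τ₀ →
      τ * ‖w‖ ≤ τ₀ →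
      ∃ t' : ℝ, κ * τ ≤ t' ∧ t' ≤ τ ∧ (f (p + t' • w) - f p) / t' = (f (p + t • w) - f p) / t) →
    (∃ w, w ≠ 0 ∧ γ 0 w ≠ 0) →
    ∀ w, w ≠ 0 → γ 0 w = 0 → ∀ t t' : ℝ, 0 < t → 0 < t' → t * ‖w‖ ≤ τ₀ → t' * ‖w‖ ≤ τ₀ →
      0 ≤ (f (t • w) - f 0) / t + (f (-(t' • w)) - f 0) / t'

/-- **C3. Flatness.** If all centred lines are straight then `f` is affine near `0`. -/
def FlatStmt : Prop :=
  ∀ (X : Type) [NormedAddCommGroup X] [InnerProductSpace ℝ X] [FiniteDimensional ℝ X]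
    (f : X → ℝ) (γ : X → X → ℝ) (ρ τ₁ : ℝ) (w₀ : X),
    Continuous f → 0 < ρ → 0 < τ₁ → w₀ ≠ 0 →
    (∀ p w, ‖p‖ < ρ → w ≠ 0 → ContinuousAt (fun q : X × X => γ q.1 q.2) (p, w)) →
    γ 0 w₀ = 0 →
    (∀ δ > 0, (∃ τ : ℝ, |τ| < δ ∧ 0 < γ (τ • w₀) w₀) ∧ ∃ τ : ℝ, |τ| < δ ∧ γ (τ • w₀) w₀ < 0) →
    (∀ p w, ‖p‖ < ρ → w ≠ 0 → γ p w = 0 →
      ∃ σ : ℝ, ∀ t : ℝ, |t| * ‖w‖ ≤ τ₁ → f (p + t • w) = f p + t * σ) →
    ∃ n : X, ∀ᶠ x in 𝓝 (0 : X), f x = f 0 + ⟪n, x⟫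

end Pool.Agent.H63.Star
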