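import Pool.Agent.H63.Star.Basic

/-!
# Star bodies with homothetic sections: geometric targets

`Cen F G v d` says that the plane spanned by `v`, `d` is centred at `v`.
-/

namespace Pool.Agent.H63.Star

open Set Filter Topology
open scoped RealInnerProductSpace

/-- **A.** Touching lemma. -/
def TouchStmt : Prop :=
  ∀ (E : Type) [NormedAddCommGroup E] [InnerProductSpace ℝ E] [FiniteDimensional ℝ E]
    (F G : E → ℝ), IsGauge F → IsGauge G → Planar F G →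
    ∀ (v d w' : E) (X : Submodule ℝ E) (ℓ : E →ₗ[ℝ] ℝ) (η : ℝ),
    v ∉ X → d ∈ X → d ≠ 0 → w' ∈ X → ℓ d = 0 → ℓ w' ≠ 0 → 0 < η →
    (∀ h ∈ X, ‖h‖ < η → F v / G v + ℓ h ≤ F (v + h) / G (v + h)) → Cen F G v d

/-- **C1.** Self-similarity of the common boundary along centred lines. -/
def SelfSimStmt : Prop :=
  ∀ (E : Type) [NormedAddCommGroup E] [InnerProductSpace ℝ E] [FiniteDimensional ℝ E]
    (F G : E → ℝ), IsGauge F → IsGauge G → Planar F G →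
    ∀ (v₀ : E) (X : Submodule ℝ E) (ε : ℝ), v₀ ∉ X → 0 < ε →
    (∀ z ∈ Metric.ball v₀ ε, F z = G z) →
    (∀ z ∈ Metric.ball v₀ ε, ∀ d, LinearIndependent ℝ ![z, d] → ctr F G z d ≠ 0) →
    ∃ ρ κ τ₀ : ℝ, 0 < ρ ∧ 0 < κ ∧ κ ≤ 1 ∧ 0 < τ₀ ∧
      ∀ p ∈ X, ‖p‖ < ρ → ∀ w ∈ X, w ≠ 0 → Cen F G (v₀ + p) w →
      ∀ t τ : ℝ, 0 < t → 0 < τ → t * ‖w‖ ≤ τ₀ → τ * ‖w‖ ≤ τ₀ →
      ∃ t' : ℝ, κ * τ ≤ t' ∧ t' ≤ τ ∧
        (F (v₀ + p + t' • w) - F (v₀ + p)) / t' = (F (v₀ + p + t • w) - F (v₀ + p)) / t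

/-- **C4.** The ratio is constant where `G` is linear. -/
def ConstStmt : Prop :=
  ∀ (E : Type) [NormedAddCommGroup E] [InnerProductSpace ℝ E] [FiniteDimensional ℝ E]
    (F G : E → ℝ), IsGauge F → IsGauge G → Planar F G → 3 ≤ Module.finrank ℝ E →
    ∀ (c₀ : ℝ) (ν : E →ₗ[ℝ] ℝ) (B : Set E),
    (∀ u, u ≠ 0 → F u / G u = F (-u) / G (-u) → F u / G u = c₀) →
    IsOpen B → IsPreconnected B → (0 : E) ∉ B → (∀ z ∈ B, G z = ν z) →
    ∀ y ∈ B, ∀ z ∈ B, F y / G y = F z / G z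

/-- **C5.** Escape to infinity from a flat common piece (uses C4 for `F, G` and for `G, F`). -/
def EscapeStmt : Prop :=
  ∀ (E : Type) [NormedAddCommGroup E] [InnerProductSpace ℝ E] [FiniteDimensional ℝ E]
    (F G : E → ℝ), IsGauge F → IsGauge G → Planar F G → 3 ≤ Module.finrank ℝ E →
    ∀ (c₀ : ℝ) (ν : E →ₗ[ℝ] ℝ) (v₀ : E) (ε : ℝ),
    (∀ u, u ≠ 0 → F u / G u = F (-u) / G (-u) → F u / G u = c₀) →
    v₀ ≠ 0 → 0 < ε → (∀ z ∈ Metric.ball v₀ ε, F z = ν z ∧ G z = ν z) →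
    (∀ d, LinearIndependent ℝ ![v₀, d] → ctr F G v₀ d ≠ 0) → False

/-- **C6.** No plateau: assembly of C1, C2, C3, C5. -/
def NoPlateauStmt : Prop :=
  ∀ (E : Type) [NormedAddCommGroup E] [InnerProductSpace ℝ E] [FiniteDimensional ℝ E]
    (F G : E → ℝ), IsGauge F → IsGauge G → Planar F G → 3 ≤ Module.finrank ℝ E →
    ∀ (c₀ : ℝ) (v₀ : E) (ε : ℝ),
    (∀ u, u ≠ 0 → F u / G u = F (-u) / G (-u) → F u / G u = c₀) →
    v₀ ≠ 0 → 0 < ε → (∀ z ∈ Metric.ball v₀ ε, F z = G z) →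
    (∀ z ∈ Metric.ball v₀ ε, ∀ d, LinearIndependent ℝ ![z, d] → ctr F G z d ≠ 0) →
    (∀ z, z ≠ 0 → ∃ d, LinearIndependent ℝ ![z, d] ∧ ¬ Cen F G z d) → False

/-- **D1.** A hyperplane on which the ratio is constant. -/
def HyperStmt : Prop :=
  ∀ (E : Type) [NormedAddCommGroup E] [InnerProductSpace ℝ E] [FiniteDimensional ℝ E]
    (F G : E → ℝ), IsGauge F → IsGauge G → 3 ≤ Module.finrank ℝ E →
    (∀ V : Submodule ℝ E, 2 ≤ Module.finrank ℝ V → Module.finrank ℝ V < Module.finrank ℝ E →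
      ∃ (x : E) (l : ℝ), Rel F G V x l) →
    ∃ (e : E) (c₀ : ℝ), e ≠ 0 ∧ 0 < c₀ ∧ (∀ z, ⟪e, z⟫ = 0 → F z = c₀ * G z) ∧
      (∀ u, u ≠ 0 → F u / G u = F (-u) / G (-u) → F u / G u = c₀) ∧
      (∀ v d, LinearIndependent ℝ ![v, d] → ctr F G v d = 0 →
        ∀ z ∈ Submodule.span ℝ {v, d}, F z = c₀ * G z)

/-- **D2.** Main step (assembly of Core, Touch, NoPlateau, Hyper). -/
def MainStepStmt : Prop :=
  ∀ (E : Type) [NormedAddCommGroup E] [InnerProductSpace ℝ E] [FiniteDimensional ℝ E]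
    (F G : E → ℝ), IsGauge F → IsGauge G → 3 ≤ Module.finrank ℝ E →
    (∀ V : Submodule ℝ E, 2 ≤ Module.finrank ℝ V → Module.finrank ℝ V < Module.finrank ℝ E →
      ∃ (x : E) (l : ℝ), Rel F G V x l) →
    ∃ (x : E) (l : ℝ), Rel F G ⊤ x l

/-- **D3.** From sections of dimension `k + 1` to sections of dimension `k`. -/
def ReduceStmt : Prop :=
  ∀ (E : Type) [NormedAddCommGroup E] [InnerProductSpace ℝ E] [FiniteDimensional ℝ E]
    (F G : E → ℝ) (k : ℕ), IsGauge F → IsGauge G → 1 ≤ k → k + 2 ≤ Module.finrank ℝ E →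
    (∀ S : Submodule ℝ E, Module.finrank ℝ S = k + 1 → ∃ (x : E) (l : ℝ), Rel F G S x l) →
    ∀ W : Submodule ℝ E, Module.finrank ℝ W = k → ∃ (x : E) (l : ℝ), Rel F G W x l

/-- **D4.** The theorem for gauges (from `MainStepStmt` by strong induction on the dimension, and
`ReduceStmt`). -/
def GaugeStmt : Prop :=
  ∀ (E : Type) [NormedAddCommGroup E] [InnerProductSpace ℝ E] [FiniteDimensional ℝ E]
    (F G : E → ℝ) (k : ℕ), IsGauge F → IsGauge G → 2 ≤ k → k + 1 ≤ Module.finrank ℝ E →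
    (∀ S : Submodule ℝ E, Module.finrank ℝ S = k → ∃ (x : E) (l : ℝ), Rel F G S x l) →
    ∃ (x : E) (l : ℝ), Rel F G ⊤ x l

end Pool.Agent.H63.Star
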