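import Pool.Agent.H63.Star.Iface2
import Pool.Agent.H16.Star.C3
import Pool.Agent.H25.Star.Core
import Pool.Agent.H25.Star.TouchB
import Pool.Agent.H25.Star.Main
import Pool.Agent.H67.Star.C4
import Pool.Agent.H67.Star.D1
import Pool.Agent.H7.Star.C5
import Pool.Agent.H72.Star.D3
import Pool.Agent.H72.Star.D4
import Pool.Agent.H91.Star.C6

/-!
# The theorem for gauges

Assembly of the modules for star bodies with the origin in the interior.
-/

namespace Pool.Agent.H63.Star

theorem gaugeThm : GaugeStmt :=
  Pool.Agent.H72.Star.gauge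
    (Pool.Agent.H25.Star.mainStep Pool.Agent.H25.Star.core Pool.Agent.H25.Star.touch
      (Pool.Agent.H91.Star.noPlateau (Pool.Agent.H7.Star.escape Pool.Agent.H67.Star.const))
      Pool.Agent.H67.Star.hyper)
    Pool.Agent.H72.Star.reduce

end Pool.Agent.H63.Star
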