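import Mathlib

/-!
# Bodies with homothetic sections, the half-space case

Auxiliary results for the problem on star bodies with homothetic sections.
-/

namespace Pool.Agent.H63.Star

open Set Filter Topology
open scoped RealInnerProductSpace

variable {E : Type*} [NormedAddCommGroup E] [InnerProductSpace ℝ E]

/-- The homothety with translation part `x` and ratio `c`. -/
def hom (x : E) (c : ℝ) (y : E) : E := x + c • y

/-- The homothety between two compact sets, one having two points, is unique. -/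
theorem hom_unique {A : Set E} (hA : IsCompact A) {a b : E} (ha : a ∈ A) (hb : b ∈ A)
    (hab : a ≠ b) {x x' : E} {c c' : ℝ} (hc : 0 < c) (hc' : 0 < c')
    (h : hom x c '' A = hom x' c' '' A) : c = c' ∧ x = x' := by
  -- ratio
  have key : ∀ {x x' : E} {c c' : ℝ}, 0 < c → 0 < c' →
      hom x c '' A = hom x' c' '' A → c ≤ c' := by
    intro x x' c c' hc hc' h
    have hAA : IsCompact (A ×ˢ A) := hA.prod hA
    obtain ⟨⟨p, q⟩, hpq, hmax⟩ := hAA.exists_isMaxOn ⟨(a, b), ⟨ha, hb⟩⟩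
      (f := fun z : E × E => dist z.1 z.2) (by fun_prop)
    have hpos : 0 < dist p q := lt_of_lt_of_le (dist_pos.2 hab) (hmax (⟨ha, hb⟩ : (a, b) ∈ A ×ˢ A))
    have hp : hom x c p ∈ hom x' c' '' A := h ▸ mem_image_of_mem _ hpq.1
    have hq : hom x c q ∈ hom x' c' '' A := h ▸ mem_image_of_mem _ hpq.2
    obtain ⟨p', hp', ep⟩ := hp
    obtain ⟨q', hq', eq⟩ := hq
    have h1 : dist (hom x c p) (hom x c q) = c * dist p q := by
      simp only [hom, dist_eq_norm]
      rw [add_sub_add_left_eq_sub, ← smul_sub, norm_smul, Real.norm_of_nonneg hc.le]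
    have h2 : dist (hom x' c' p') (hom x' c' q') = c' * dist p' q' := by
      simp only [hom, dist_eq_norm]
      rw [add_sub_add_left_eq_sub, ← smul_sub, norm_smul, Real.norm_of_nonneg hc'.le]
    have h3 : dist p' q' ≤ dist p q := hmax (⟨hp', hq'⟩ : (p', q') ∈ A ×ˢ A)
    rw [ep, eq, h1] at h2
    have h4 : c * dist p q ≤ c' * dist p q := by
      rw [h2]; exact mul_le_mul_of_nonneg_left h3 hc'.le
    exact le_of_mul_le_mul_right h4 hpos
  have hcc : c = c' := le_antisymm (key hc hc' h) (key hc' hc h.symm)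
  subst hcc
  refine ⟨rfl, ?_⟩
  obtain ⟨p, hp, hmax⟩ := hA.exists_isMaxOn ⟨a, ha⟩
      (f := fun z : E => ⟪x - x', z⟫) (by fun_prop)
  have hp2 : hom x c p ∈ hom x' c '' A := h ▸ mem_image_of_mem _ hp
  obtain ⟨p', hp', ep⟩ := hp2
  have h3 : ⟪x - x', p'⟫ ≤ ⟪x - x', p⟫ := hmax hp'
  have h4 : x - x' = c • (p' - p) := by
    simp only [hom] at ep
    rw [smul_sub]
    have : x' + c • p' - (x' + c • p) = x + c • p - (x' + c • p) := by rw [ep]
    rw [add_sub_add_left_eq_sub, add_sub_add_right_eq_sub] at this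
    exact this.symm
  have h5 : ⟪x - x', x - x'⟫ ≤ 0 := by
    nth_rewrite 2 [h4]
    rw [inner_smul_right, inner_sub_right]
    nlinarith
  have h6 : x - x' = 0 := real_inner_self_nonpos.1 h5
  exact sub_eq_zero.1 h6

/-- Restriction of the relation between sections to a smaller subspace. -/
theorem restrict {K L : Set E} {S W : Submodule ℝ E} (hWS : W ≤ S) {x : E} {c : ℝ} (hc : 0 < c)
    (hx : x ∈ W) (h : L ∩ (S : Set E) = hom x c '' (K ∩ (S : Set E))) :
    L ∩ (W : Set E) = hom x c '' (K ∩ (W : Set E)) := by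
  ext v
  constructor
  · rintro ⟨hvL, hvW⟩
    have : v ∈ hom x c '' (K ∩ (S : Set E)) := h ▸ ⟨hvL, hWS hvW⟩
    obtain ⟨y, ⟨hyK, hyS⟩, rfl⟩ := this
    refine ⟨y, ⟨hyK, ?_⟩, rfl⟩
    have h1 : c • y ∈ W := by
      have := W.sub_mem hvW hx
      simpa [hom] using this
    have h2 := W.smul_mem c⁻¹ h1
    rwa [smul_smul, inv_mul_cancel₀ hc.ne', one_smul] at h2
  · rintro ⟨y, ⟨hyK, hyW⟩, rfl⟩
    have : hom x c y ∈ L ∩ (S : Set E) := h ▸ mem_image_of_mem _ ⟨hyK, hWS hyW⟩
    exact ⟨this.1, W.add_mem hx (W.smul_mem c hyW)⟩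

/-- Pointwise form of the relation between sections. -/
theorem mem_iff {K L : Set E} {S : Submodule ℝ E} {x : E} {c : ℝ} (hc : 0 < c)
    (hx : x ∈ S) (h : L ∩ (S : Set E) = hom x c '' (K ∩ (S : Set E))) {v : E} (hv : v ∈ S) :
    v ∈ L ↔ v ∈ hom x c '' K := by
  constructor
  · intro hvL
    have : v ∈ hom x c '' (K ∩ (S : Set E)) := h ▸ ⟨hvL, hv⟩
    exact image_mono inter_subset_left this
  · rintro ⟨y, hyK, rfl⟩
    have h1 : c • y ∈ S := by
      have := S.sub_mem hv hx
      simpa [hom] using this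
    have h2 := S.smul_mem c⁻¹ h1
    rw [smul_smul, inv_mul_cancel₀ hc.ne', one_smul] at h2
    have : hom x c y ∈ L ∩ (S : Set E) := h ▸ mem_image_of_mem _ ⟨hyK, h2⟩
    exact this.1

omit [InnerProductSpace ℝ E] in
theorem subset_of_dense {A B D : Set E} (hA : closure (interior A) = A) (hB : IsClosed B)
    (hD : Dense D) (h : ∀ v ∈ D, v ∈ A → v ∈ B) : A ⊆ B := by
  rw [← hA]
  refine closure_minimal ?_ hB
  refine (hD.open_subset_closure_inter isOpen_interior).trans ?_
  refine closure_minimal ?_ hB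
  rintro v ⟨hv1, hv2⟩
  exact h v hv2 (interior_subset hv1)

/-- The homothety as a homeomorphism. -/
noncomputable def homHomeo (x : E) (c : ℝ) (hc : 0 < c) : E ≃ₜ E where
  toFun := hom x c
  invFun := fun z => c⁻¹ • (z - x)
  left_inv := fun y => by
    simp only [hom]
    rw [add_sub_cancel_left, smul_smul, inv_mul_cancel₀ hc.ne', one_smul]
  right_inv := fun z => by
    simp only [hom]
    rw [smul_smul, mul_inv_cancel₀ hc.ne', one_smul, add_sub_cancel]
  continuous_toFun := by unfold hom; fun_prop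
  continuous_invFun := by fun_prop

theorem eq_of_dense {K L D : Set E} (hK : closure (interior K) = K)
    (hLc : IsCompact L) (hL : closure (interior L) = L) {x : E} {c : ℝ} (hc : 0 < c)
    (hD : Dense D) (h : ∀ v ∈ D, (v ∈ L ↔ v ∈ hom x c '' K)) : L = hom x c '' K := by
  have himg : hom x c '' K = homHomeo x c hc '' K := rfl
  have hcl : closure (interior (hom x c '' K)) = hom x c '' K := by
    rw [himg, ← Homeomorph.image_interior, ← Homeomorph.image_closure, hK]
  have hclosed : IsClosed (hom x c '' K) := by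
    rw [← hcl]; exact isClosed_closure
  exact Subset.antisymm
    (subset_of_dense hL hclosed hD fun v hv hvL => (h v hv).1 hvL)
    (subset_of_dense hcl hLc.isClosed hD fun v hv hvL => (h v hv).2 hvL)

variable [FiniteDimensional ℝ E]

/-- Subspaces of every intermediate dimension. -/
theorem exists_between {A B : Submodule ℝ E} (hAB : A ≤ B) {j : ℕ}
    (h1 : Module.finrank ℝ A ≤ j) (h2 : j ≤ Module.finrank ℝ B) :
    ∃ T : Submodule ℝ E, A ≤ T ∧ T ≤ B ∧ Module.finrank ℝ T = j := by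
  induction j with
  | zero =>
    exact ⟨A, le_rfl, hAB, Nat.le_zero.1 h1⟩
  | succ j ih =>
    rcases Nat.lt_or_ge j (Module.finrank ℝ A) with h | h
    · exact ⟨A, le_rfl, hAB, by omega⟩
    · obtain ⟨T, hAT, hTB, hT⟩ := ih h (by omega)
      have hne : T ≠ B := by
        rintro rfl; omega
      obtain ⟨b, hbB, hbT⟩ := SetLike.exists_of_lt (lt_of_le_of_ne hTB hne)
      refine ⟨T ⊔ Submodule.span ℝ {b}, hAT.trans le_sup_left, ?_, ?_⟩
      · refine sup_le hTB ?_
        rw [Submodule.span_singleton_le_iff_mem]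
        exact hbB
      · rw [Submodule.finrank_sup_span_singleton hbT, hT]

/-- A vector orthogonal to two given ones, in dimension at least three. -/
theorem exists_orth (h3 : 3 ≤ Module.finrank ℝ E) (a b : E) :
    ∃ m : E, m ≠ 0 ∧ ⟪m, a⟫ = 0 ∧ ⟪m, b⟫ = 0 := by
  classical
  set W : Submodule ℝ E := Submodule.span ℝ {a, b} with hW
  have h1 : Module.finrank ℝ W ≤ 2 := by
    have := finrank_span_le_card (R := ℝ) ({a, b} : Set E)
    refine this.trans ?_
    simpa using Finset.card_le_two (a := a) (b := b)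
  have h2 := W.finrank_add_finrank_orthogonal
  have h4 : Wᗮ ≠ ⊥ := by
    intro h
    rw [h, finrank_bot] at h2
    omega
  obtain ⟨m, hm, hm0⟩ := Submodule.exists_mem_ne_zero_of_ne_bot h4
  refine ⟨m, hm0, ?_, ?_⟩
  · rw [real_inner_comm]
    exact (Submodule.mem_orthogonal W m).1 hm a (Submodule.subset_span (by simp))
  · rw [real_inner_comm]
    exact (Submodule.mem_orthogonal W m).1 hm b (Submodule.subset_span (by simp))

/-- The common kernel of two independent functionals has codimension two. -/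
theorem finrank_orth_pair (a b : E) :
    Module.finrank ℝ E ≤ Module.finrank ℝ (Submodule.span ℝ {a, b})ᗮ + 2 := by
  classical
  have h1 : Module.finrank ℝ (Submodule.span ℝ {a, b}) ≤ 2 := by
    have := finrank_span_le_card (R := ℝ) ({a, b} : Set E)
    refine this.trans ?_
    simpa using Finset.card_le_two (a := a) (b := b)
  have h2 := (Submodule.span ℝ {a, b}).finrank_add_finrank_orthogonal
  omega

omit [FiniteDimensional ℝ E] in
theorem mem_of_sec {K L : Set E} {S : Submodule ℝ E} (h0K : (0 : E) ∈ K) {x : E} {c : ℝ}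
    (h : L ∩ (S : Set E) = hom x c '' (K ∩ (S : Set E))) : x ∈ L ∧ x ∈ S := by
  have h1 : hom x c 0 ∈ L ∩ (S : Set E) := h ▸ mem_image_of_mem _ ⟨h0K, S.zero_mem⟩
  have h2 : hom x c 0 = x := by simp [hom]
  rw [h2] at h1
  exact h1

omit [FiniteDimensional ℝ E] in
theorem pre_of_sec {K L : Set E} {S : Submodule ℝ E} {x : E} {c : ℝ}
    (h : L ∩ (S : Set E) = hom x c '' (K ∩ (S : Set E))) {q : E} (hq : q ∈ L) (hqS : q ∈ S) :
    ∃ y ∈ K, y ∈ S ∧ x + c • y = q := by
  have h1 : q ∈ hom x c '' (K ∩ (S : Set E)) := h ▸ ⟨hq, hqS⟩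
  obtain ⟨y, ⟨hyK, hyS⟩, hy⟩ := h1
  exact ⟨y, hyK, hyS, hy⟩

omit [FiniteDimensional ℝ E] in
theorem dense_off {ν : E} (hν : ν ≠ 0) : Dense {v : E | ⟪ν, v⟫ ≠ 0} := by
  intro v
  by_cases hv : ⟪ν, v⟫ = 0
  · have ht : Tendsto (fun t : ℝ => v + t • ν) (𝓝[≠] 0) (𝓝 v) := by
      have : Tendsto (fun t : ℝ => v + t • ν) (𝓝 0) (𝓝 (v + (0 : ℝ) • ν)) := by
        apply Continuous.tendsto
        fun_prop
      rw [zero_smul, add_zero] at this
      exact this.mono_left nhdsWithin_le_nhds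
    refine mem_closure_of_tendsto ht ?_
    filter_upwards [self_mem_nhdsWithin] with t ht
    show ⟪ν, v + t • ν⟫ ≠ 0
    rw [inner_add_right, hv, zero_add, inner_smul_right]
    have : ⟪ν, ν⟫ ≠ 0 := fun h => hν (inner_self_eq_zero.1 h)
    exact mul_ne_zero ht this
  · exact subset_closure hv

/-- Both bodies lie in the half-space. -/
theorem case_two {K L : Set E} (hKc : IsCompact K) (hK : closure (interior K) = K)
    (hL : closure (interior L) = L) (hLc : IsCompact L) (h0K : (0 : E) ∈ K) (h0L : (0 : E) ∈ L)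
    {k : ℕ} (hk : 2 ≤ k) (hkn : k + 1 ≤ Module.finrank ℝ E)
    (hsec : ∀ S : Submodule ℝ E, Module.finrank ℝ S = k →
      ∃ (x : E) (c : ℝ), 0 < c ∧ L ∩ (S : Set E) = hom x c '' (K ∩ (S : Set E)))
    {ν : E} (hν : ν ≠ 0) (hKν : ∀ y ∈ K, ⟪ν, y⟫ ≤ 0) (hLν : ∀ y ∈ L, ⟪ν, y⟫ ≤ 0) :
    ∃ (x : E) (c : ℝ), 0 < c ∧ L = hom x c '' K := by
  classical
  -- the translation part is orthogonal to `ν`, and comes from a point of `K` orthogonal to `ν`
  have key : ∀ {S : Submodule ℝ E} {x : E} {c : ℝ}, 0 < c →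
      L ∩ (S : Set E) = hom x c '' (K ∩ (S : Set E)) →
      x ∈ S ∧ ⟪ν, x⟫ = 0 ∧ ∃ y ∈ K, ⟪ν, y⟫ = 0 ∧ x + c • y = 0 := by
    intro S x c hc h
    obtain ⟨hxL, hxS⟩ := mem_of_sec h0K h
    obtain ⟨y, hyK, hyS, hy⟩ := pre_of_sec h h0L S.zero_mem
    have h1 : ⟪ν, x⟫ + c * ⟪ν, y⟫ = 0 := by
      rw [← inner_smul_right, ← inner_add_right, hy, inner_zero_right]
    have h2 := hKν y hyK
    have h3 := hLν x hxL
    have h4 : ⟪ν, x⟫ = 0 := by nlinarith
    have h5 : ⟪ν, y⟫ = 0 := by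
      rw [h4, zero_add] at h1
      rcases mul_eq_zero.1 h1 with h | h
      · exact absurd h hc.ne'
      · exact h
    exact ⟨hxS, h4, y, hyK, h5, hy⟩
  by_cases hz : ∃ z ∈ K, z ≠ 0 ∧ ⟪ν, z⟫ = 0
  · obtain ⟨z, hzK, hz0, hzν⟩ := hz
    -- a subspace of dimension `k - 1` in the hyperplane containing `z`
    obtain ⟨T, hzT, hTH, hTk⟩ := exists_between (A := Submodule.span ℝ {z})
      (B := (Submodule.span ℝ {ν})ᗮ) (j := k - 1)
      (by
        rw [Submodule.span_singleton_le_iff_mem, Submodule.mem_orthogonal_singleton_iff_inner_right]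
        exact hzν)
      (by rw [finrank_span_singleton hz0]; omega)
      (by
        have h1 := (Submodule.span ℝ {ν}).finrank_add_finrank_orthogonal
        rw [finrank_span_singleton hν] at h1
        omega)
    have hzT' : z ∈ T := hzT (Submodule.mem_span_singleton_self z)
    have hTν : ∀ t ∈ T, ⟪ν, t⟫ = 0 := fun t ht =>
      (Submodule.mem_orthogonal_singleton_iff_inner_right).1 (hTH ht)
    -- sections through `T`
    have hsecT : ∀ v : E, ⟪ν, v⟫ ≠ 0 → ∃ (S : Submodule ℝ E) (x : E) (c : ℝ), v ∈ S ∧ T ≤ S ∧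
        0 < c ∧ x ∈ T ∧ L ∩ (S : Set E) = hom x c '' (K ∩ (S : Set E)) := by
      intro v hv
      have hvT : v ∉ T := fun h => hv (hTν v h)
      have hfr : Module.finrank ℝ (T ⊔ Submodule.span ℝ {v} : Submodule ℝ E) = k := by
        rw [Submodule.finrank_sup_span_singleton hvT, hTk]; omega
      obtain ⟨x, c, hc, h⟩ := hsec _ hfr
      obtain ⟨hxS, hxν, -⟩ := key hc h
      refine ⟨_, x, c, ?_, le_sup_left, hc, ?_, h⟩
      · exact Submodule.mem_sup_right (Submodule.mem_span_singleton_self v)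
      · obtain ⟨t, ht, s, hs, hts⟩ := Submodule.mem_sup.1 hxS
        obtain ⟨r, rfl⟩ := Submodule.mem_span_singleton.1 hs
        have : r = 0 := by
          rw [← hts, inner_add_right, hTν t ht, zero_add, inner_smul_right] at hxν
          rcases mul_eq_zero.1 hxν with h | h
          · exact h
          · exact absurd h hv
        rw [this, zero_smul, add_zero] at hts
        rwa [← hts]
    have hTcompact : IsCompact (K ∩ (T : Set E)) :=
      hKc.inter_right (Submodule.closed_of_finiteDimensional T)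
    -- a reference section
    have hνν : ⟪ν, ν⟫ ≠ 0 := fun h => hν (inner_self_eq_zero.1 h)
    obtain ⟨S₀, x₀, c₀, -, hTS₀, hc₀, hx₀, h₀⟩ := hsecT ν hνν
    refine ⟨x₀, c₀, hc₀, ?_⟩
    refine eq_of_dense hK hLc hL hc₀ (dense_off hν) ?_
    intro v hv
    obtain ⟨S, x, c, hvS, hTS, hc, hx, h⟩ := hsecT v hv
    have e1 := restrict hTS₀ hc₀ hx₀ h₀
    have e2 := restrict hTS hc hx h
    have hu := hom_unique hTcompact (a := z) (b := 0) ⟨hzK, hzT'⟩ ⟨h0K, T.zero_mem⟩ hz0 hc hc₀
      (e2.symm.trans e1)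
    obtain ⟨rfl, rfl⟩ := hu
    exact mem_iff hc (hTS hx) h hvS
  · push Not at hz
    -- every translation part vanishes
    have key2 : ∀ {S : Submodule ℝ E} {x : E} {c : ℝ}, 0 < c →
        L ∩ (S : Set E) = hom x c '' (K ∩ (S : Set E)) → x = 0 := by
      intro S x c hc h
      obtain ⟨hxS, hxν, y, hyK, hyν, hy⟩ := key hc h
      have hy0 : y = 0 := by
        by_contra hne
        exact hz y hyK hne hyν
      rw [hy0, smul_zero, add_zero] at hy
      exact hy
    -- a nonzero point of `K`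
    have hnt : Nontrivial E := ⟨ν, 0, hν⟩
    obtain ⟨u, huK, hu0⟩ : ∃ u ∈ K, u ≠ (0 : E) := by
      by_contra hcon
      push Not at hcon
      have hsub : interior K ⊆ interior {(0 : E)} := interior_mono fun u hu => hcon u hu
      have hne : (interior K).Nonempty := by
        rw [← closure_nonempty_iff, hK]; exact ⟨0, h0K⟩
      obtain ⟨w, hw⟩ := hne
      have := hsub hw
      rw [interior_singleton] at this
      exact this
    -- sections through `u` and a second vector
    have hsecu : ∀ v : E, ∃ (S : Submodule ℝ E) (c : ℝ), u ∈ S ∧ v ∈ S ∧ 0 < c ∧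
        L ∩ (S : Set E) = hom 0 c '' (K ∩ (S : Set E)) := by
      intro v
      obtain ⟨S, hS1, -, hSk⟩ := exists_between (A := Submodule.span ℝ {u, v}) (B := ⊤)
        (j := k) le_top
        (by
          have := finrank_span_le_card (R := ℝ) ({u, v} : Set E)
          refine this.trans (le_trans ?_ hk)
          simpa using Finset.card_le_two (a := u) (b := v))
        (by rw [finrank_top]; omega)
      obtain ⟨x, c, hc, h⟩ := hsec S hSk
      have hx := key2 hc h
      subst hx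
      exact ⟨S, c, hS1 (Submodule.subset_span (by simp)), hS1 (Submodule.subset_span (by simp)),
        hc, h⟩
    obtain ⟨S₀, c₀, huS₀, -, hc₀, h₀⟩ := hsecu 0
    refine ⟨0, c₀, hc₀, ?_⟩
    have hcomp : IsCompact (K ∩ ((Submodule.span ℝ {u} : Submodule ℝ E) : Set E)) :=
      hKc.inter_right (Submodule.closed_of_finiteDimensional _)
    ext v
    obtain ⟨S, c, huS, hvS, hc, h⟩ := hsecu v
    have hW : ∀ {S : Submodule ℝ E}, u ∈ S → Submodule.span ℝ {u} ≤ S := by
      intro S hS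
      rwa [Submodule.span_singleton_le_iff_mem]
    have e1 := restrict (hW huS₀) hc₀ (Submodule.zero_mem _) h₀
    have e2 := restrict (hW huS) hc (Submodule.zero_mem _) h
    have hu := hom_unique hcomp (a := u) (b := 0)
      ⟨huK, Submodule.mem_span_singleton_self u⟩ ⟨h0K, Submodule.zero_mem _⟩ hu0 hc hc₀
      (e2.symm.trans e1)
    obtain ⟨rfl, -⟩ := hu
    exact mem_iff hc (Submodule.zero_mem _) h hvS

/-- The second body sticks out of the half-space. -/
theorem case_one {K L : Set E} (hKc : IsCompact K) (hK : closure (interior K) = K)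
    (hL : closure (interior L) = L) (hLc : IsCompact L) (h0K : (0 : E) ∈ K) (h0L : (0 : E) ∈ L)
    {k : ℕ} (hk : 2 ≤ k) (hkn : k + 1 ≤ Module.finrank ℝ E)
    (hsec : ∀ S : Submodule ℝ E, Module.finrank ℝ S = k →
      ∃ (x : E) (c : ℝ), 0 < c ∧ L ∩ (S : Set E) = hom x c '' (K ∩ (S : Set E)))
    {ν : E} (hKν : ∀ y ∈ K, ⟪ν, y⟫ ≤ 0) (hLν : ∃ y ∈ L, 0 < ⟪ν, y⟫) :
    ∃ (x : E) (c : ℝ), 0 < c ∧ L = hom x c '' K := by
  classical
  obtain ⟨q, hqL, hqmax⟩ := hLc.exists_isMaxOn ⟨0, h0L⟩ (f := fun y : E => ⟪ν, y⟫) (by fun_prop)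
  set τ : ℝ := ⟪ν, q⟫ with hτ
  have hmax : ∀ y ∈ L, ⟪ν, y⟫ ≤ τ := fun y hy => hqmax hy
  have hτpos : 0 < τ := by
    obtain ⟨y, hyL, hy⟩ := hLν
    exact lt_of_lt_of_le hy (hmax y hyL)
  have hν : ν ≠ 0 := by
    rintro rfl
    rw [hτ, inner_zero_left] at hτpos
    exact lt_irrefl _ hτpos
  have hνν : (0 : ℝ) < ⟪ν, ν⟫ := by
    rw [real_inner_self_eq_norm_sq]
    have := norm_pos_iff.2 hν
    positivity
  have key1 : ∀ {S : Submodule ℝ E} {x : E} {c : ℝ}, 0 < c →
      L ∩ (S : Set E) = hom x c '' (K ∩ (S : Set E)) → ∀ {q' : E}, q' ∈ L → q' ∈ S →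
      ⟪ν, q'⟫ = τ → x ∈ S ∧ x ∈ L ∧ ⟪ν, x⟫ = τ ∧ ∃ y ∈ K, y ∈ S ∧ ⟪ν, y⟫ = 0 ∧ x + c • y = q' := by
    intro S x c hc h q' hq'L hq'S hq'
    obtain ⟨hxL, hxS⟩ := mem_of_sec h0K h
    obtain ⟨y, hyK, hyS, hy⟩ := pre_of_sec h hq'L hq'S
    have h1 : ⟪ν, x⟫ + c * ⟪ν, y⟫ = τ := by
      rw [← inner_smul_right, ← inner_add_right, hy, hq']
    have h2 := hKν y hyK
    have h3 := hmax x hxL
    have h4 : ⟪ν, x⟫ = τ := by nlinarith
    have h5 : ⟪ν, y⟫ = 0 := by
      have : c * ⟪ν, y⟫ = 0 := by linarith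
      rcases mul_eq_zero.1 this with h | h
      · exact absurd h hc.ne'
      · exact h
    exact ⟨hxS, hxL, h4, y, hyK, hyS, h5, hy⟩
  set D : Set E := {v : E | ∃ (S : Submodule ℝ E) (c : ℝ), 0 < c ∧ q ∈ S ∧ v ∈ S ∧
    L ∩ (S : Set E) = hom q c '' (K ∩ (S : Set E))} with hD
  -- the face of `L`
  set F : Set E := L ∩ {y : E | ⟪ν, y⟫ = τ} with hF
  have hFc : IsCompact F := hLc.inter_right (isClosed_eq (by fun_prop) (by fun_prop))
  have hFne : F.Nonempty := ⟨q, hqL, rfl⟩
  set P : E → E := fun y => y - (⟪ν, y⟫ / ⟪ν, ν⟫) • ν with hP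
  have hPcont : Continuous P := by rw [hP]; fun_prop
  have hPν : ∀ y, ⟪ν, P y⟫ = 0 := by
    intro y
    simp only [hP]
    rw [inner_sub_right, inner_smul_right, div_mul_cancel₀ _ hνν.ne', sub_self]
  -- density
  have hdense : Dense D := by
    intro v
    set t : ℝ := ⟪ν, v⟫ / τ with ht
    set h : E := v - t • q with hh
    have hνh : ⟪ν, h⟫ = 0 := by
      rw [hh, inner_sub_right, inner_smul_right, ← hτ, ht, div_mul_cancel₀ _ hτpos.ne', sub_self]
    obtain ⟨m₀, hm₀, hm₀ν, hm₀h⟩ := exists_orth (E := E) (by omega) ν h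
    -- maximisers
    have hex : ∀ δ : ℝ, ∃ p ∈ F, ∀ y ∈ F, ⟪m₀, y⟫ + δ * ⟪y, y⟫ ≤ ⟪m₀, p⟫ + δ * ⟪p, p⟫ := by
      intro δ
      obtain ⟨p, hp, hpm⟩ := hFc.exists_isMaxOn hFne
        (f := fun y : E => ⟪m₀, y⟫ + δ * ⟪y, y⟫) (by fun_prop)
      exact ⟨p, hp, fun y hy => hpm hy⟩
    choose p hpF hpmax using hex
    set m : ℝ → E := fun δ => m₀ + (2 * δ) • P (p δ) with hm
    have hmν : ∀ δ, ⟪ν, m δ⟫ = 0 := by
      intro δ
      simp only [hm]
      rw [inner_add_right, inner_smul_right, hPν, mul_zero, add_zero, real_inner_comm, hm₀ν]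
    -- uniqueness of the maximiser
    have huniq : ∀ δ : ℝ, 0 < δ → ∀ y ∈ L, ⟪ν, y⟫ = τ → ⟪m δ, y⟫ = ⟪m δ, p δ⟫ → y = p δ := by
      intro δ hδ y hyL hyν hym
      have h1 := hpmax δ y ⟨hyL, hyν⟩
      have hpν : ⟪ν, p δ⟫ = τ := (hpF δ).2
      have e1 : ⟪m δ, y⟫ = ⟪m₀, y⟫ + 2 * δ * (⟪p δ, y⟫ - τ / ⟪ν, ν⟫ * τ) := by
        simp only [hm, hP]
        rw [inner_add_left, inner_smul_left, inner_sub_left, inner_smul_left, hyν, hpν]
        simp
      have e2 : ⟪m δ, p δ⟫ = ⟪m₀, p δ⟫ + 2 * δ * (⟪p δ, p δ⟫ - τ / ⟪ν, ν⟫ * τ) := by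
        simp only [hm, hP]
        rw [inner_add_left, inner_smul_left, inner_sub_left, inner_smul_left, hpν]
        simp
      have e3 : ⟪y - p δ, y - p δ⟫ = ⟪y, y⟫ - 2 * ⟪p δ, y⟫ + ⟪p δ, p δ⟫ := by
        rw [inner_sub_left, inner_sub_right, inner_sub_right, real_inner_comm (p δ) y]
        ring
      have h2 : δ * ⟪y - p δ, y - p δ⟫ ≤ 0 := by
        rw [e3]
        rw [e1, e2] at hym
        nlinarith
      have h3 : ⟪y - p δ, y - p δ⟫ ≤ 0 := by
        by_contra hcon
        push Not at hcon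
        have := mul_pos hδ hcon
        linarith
      exact sub_eq_zero.1 (real_inner_self_nonpos.1 h3)
    -- convergence
    obtain ⟨R, hR⟩ := (hLc.image hPcont).isBounded.exists_norm_le
    have hmt : Tendsto m (𝓝[>] 0) (𝓝 m₀) := by
      have h1 : Tendsto (fun δ : ℝ => (2 * δ) • P (p δ)) (𝓝[>] 0) (𝓝 0) := by
        have hb : ∀ δ, ‖P (p δ)‖ ≤ R := fun δ => hR _ (mem_image_of_mem _ (hpF δ).1)
        have h2 : Tendsto (fun δ : ℝ => |2 * δ| * R) (𝓝[>] 0) (𝓝 0) := by
          have : Tendsto (fun δ : ℝ => |2 * δ| * R) (𝓝 0) (𝓝 (|2 * (0 : ℝ)| * R)) := by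
            apply Continuous.tendsto
            fun_prop
          rw [mul_zero, abs_zero, zero_mul] at this
          exact this.mono_left nhdsWithin_le_nhds
        refine squeeze_zero_norm (fun δ => ?_) h2
        rw [norm_smul, Real.norm_eq_abs]
        exact mul_le_mul_of_nonneg_left (hb δ) (abs_nonneg _)
      have h3 := (tendsto_const_nhds (x := m₀) (f := 𝓝[>] (0 : ℝ))).add h1
      rw [add_zero] at h3
      exact h3
    set G : E → E := fun w => h - (⟪w, h⟫ / ⟪w, w⟫) • w + t • q with hG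
    have hm₀m₀ : ⟪m₀, m₀⟫ ≠ 0 := fun h => hm₀ (inner_self_eq_zero.1 h)
    have hGt : Tendsto (fun δ => G (m δ)) (𝓝[>] 0) (𝓝 v) := by
      have hGc : ContinuousAt G m₀ := by
        rw [hG]
        refine ContinuousAt.add (ContinuousAt.sub continuousAt_const ?_) continuousAt_const
        refine ContinuousAt.smul (ContinuousAt.div ?_ ?_ hm₀m₀) continuousAt_id
        · fun_prop
        · fun_prop
      have h1 : G m₀ = v := by
        simp only [hG]
        rw [hm₀h, zero_div, zero_smul, sub_zero, hh, sub_add_cancel]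
      have h2 : Tendsto G (𝓝 m₀) (𝓝 v) := by
        have := hGc.tendsto
        rwa [h1] at this
      exact h2.comp hmt
    refine mem_closure_of_tendsto hGt ?_
    have hne : ∀ᶠ δ in 𝓝[>] (0 : ℝ), m δ ≠ 0 := hmt.eventually_ne hm₀
    filter_upwards [hne, self_mem_nhdsWithin] with δ hmδ hδ
    have hδ : 0 < δ := hδ
    have hmm : ⟪m δ, m δ⟫ ≠ 0 := fun h => hmδ (inner_self_eq_zero.1 h)
    set h' : E := h - (⟪m δ, h⟫ / ⟪m δ, m δ⟫) • m δ with hh'
    have hh'm : ⟪m δ, h'⟫ = 0 := by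
      rw [hh', inner_sub_right, inner_smul_right, div_mul_cancel₀ _ hmm, sub_self]
    have hh'ν : ⟪ν, h'⟫ = 0 := by
      rw [hh', inner_sub_right, inner_smul_right, hνh, hmν, mul_zero, sub_zero]
    obtain ⟨T, hT1, hT2, hTk⟩ := exists_between (A := Submodule.span ℝ {h'})
      (B := (Submodule.span ℝ {ν, m δ})ᗮ) (j := k - 1)
      (by
        rw [Submodule.span_singleton_le_iff_mem, Submodule.mem_orthogonal]
        intro u hu
        obtain ⟨α, β, rfl⟩ := Submodule.mem_span_pair.1 hu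
        rw [inner_add_left, inner_smul_left, inner_smul_left, hh'm, hh'ν]
        simp)
      (by
        have := finrank_span_le_card (R := ℝ) ({h'} : Set E)
        refine this.trans ?_
        simp only [toFinset_singleton, Finset.card_singleton]
        omega)
      (by
        have := finrank_orth_pair ν (m δ)
        omega)
    have hTν : ∀ s ∈ T, ⟪ν, s⟫ = 0 := fun s hs =>
      (Submodule.mem_orthogonal _ _).1 (hT2 hs) ν (Submodule.subset_span (by simp))
    have hTm : ∀ s ∈ T, ⟪m δ, s⟫ = 0 := fun s hs =>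
      (Submodule.mem_orthogonal _ _).1 (hT2 hs) (m δ) (Submodule.subset_span (by simp))
    have hh'T : h' ∈ T := hT1 (Submodule.mem_span_singleton_self h')
    -- sections spanned by `T` and a point of the face
    have hspan : ∀ {p' : E}, ⟪ν, p'⟫ = τ →
        Module.finrank ℝ (T ⊔ Submodule.span ℝ {p'} : Submodule ℝ E) = k := by
      intro p' hp'
      have : p' ∉ T := by
        intro hmem
        rw [hTν p' hmem] at hp'
        exact hτpos.ne hp'
      rw [Submodule.finrank_sup_span_singleton this, hTk]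
      omega
    have hdec : ∀ {p' : E}, ⟪ν, p'⟫ = τ → ∀ s ∈ (T ⊔ Submodule.span ℝ {p'} : Submodule ℝ E),
        s - (⟪ν, s⟫ / τ) • p' ∈ T := by
      intro p' hp' s hs
      obtain ⟨a, ha, b, hb, rfl⟩ := Submodule.mem_sup.1 hs
      obtain ⟨r, rfl⟩ := Submodule.mem_span_singleton.1 hb
      have : ⟪ν, a + r • p'⟫ / τ = r := by
        rw [inner_add_right, hTν a ha, zero_add, inner_smul_right, hp']
        field_simp
      rw [this, add_sub_cancel_right]
      exact ha
    -- `K ∩ T` is trivial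
    have hKT : ∀ z ∈ K, z ∈ T → z = 0 := by
      intro z hzK hzT
      have hpν : ⟪ν, p δ⟫ = τ := (hpF δ).2
      obtain ⟨x', c', hc', hs'⟩ := hsec _ (hspan hpν)
      have hpS : p δ ∈ (T ⊔ Submodule.span ℝ {p δ} : Submodule ℝ E) :=
        Submodule.mem_sup_right (Submodule.mem_span_singleton_self _)
      obtain ⟨hx'S, hx'L, hx'ν, -⟩ := key1 hc' hs' (hpF δ).1 hpS hpν
      have h1 := hdec hpν x' hx'S
      rw [hx'ν, div_self hτpos.ne', one_smul] at h1
      have h2 : x' = p δ := by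
        apply huniq δ hδ x' hx'L hx'ν
        have := hTm _ h1
        rw [inner_sub_right] at this
        linarith
      have h3 : x' + c' • z ∈ L ∩ ((T ⊔ Submodule.span ℝ {p δ} : Submodule ℝ E) : Set E) := by
        rw [hs']
        exact mem_image_of_mem _ ⟨hzK, Submodule.mem_sup_left hzT⟩
      have h4 : x' + c' • z = p δ := by
        apply huniq δ hδ _ h3.1
        · rw [inner_add_right, inner_smul_right, hTν z hzT, hx'ν]; ring
        · rw [inner_add_right, inner_smul_right, hTm z hzT, h2]; ring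
      rw [h2] at h4
      have h5 : c' • z = 0 := by
        have := h4
        rwa [add_eq_left] at this
      rcases smul_eq_zero.1 h5 with h | h
      · exact absurd h hc'.ne'
      · exact h
    obtain ⟨x, c, hc, hs⟩ := hsec _ (hspan (p' := q) rfl)
    have hqS : q ∈ (T ⊔ Submodule.span ℝ {q} : Submodule ℝ E) :=
      Submodule.mem_sup_right (Submodule.mem_span_singleton_self _)
    obtain ⟨hxS, hxL, hxν, y, hyK, hyS, hyν, hy⟩ := key1 hc hs hqL hqS rfl
    have hyT : y ∈ T := by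
      have := hdec (p' := q) rfl y hyS
      rwa [hyν, zero_div, zero_smul, sub_zero] at this
    have hy0 := hKT y hyK hyT
    rw [hy0, smul_zero, add_zero] at hy
    subst hy
    refine ⟨_, c, hc, hqS, ?_, hs⟩
    exact Submodule.add_mem _ (Submodule.mem_sup_left hh'T) (Submodule.smul_mem _ _ hqS)
  -- a reference section
  obtain ⟨v₀, S₀, c₀, hc₀, hqS₀, -, h₀⟩ := hdense.nonempty
  refine ⟨q, c₀, hc₀, ?_⟩
  refine eq_of_dense hK hLc hL hc₀ hdense ?_
  rintro v ⟨S, c, hc, hqS, hvS, hs⟩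
  have hW : ∀ {S : Submodule ℝ E}, q ∈ S → Submodule.span ℝ {q} ≤ S := by
    intro S hS
    rwa [Submodule.span_singleton_le_iff_mem]
  have hcomp : IsCompact (K ∩ ((Submodule.span ℝ {q} : Submodule ℝ E) : Set E)) :=
    hKc.inter_right (Submodule.closed_of_finiteDimensional _)
  have e1 := restrict (hW hqS₀) hc₀ (Submodule.mem_span_singleton_self _) h₀
  have e2 := restrict (hW hqS) hc (Submodule.mem_span_singleton_self _) hs
  obtain ⟨y₀, hy₀K, hy₀S, hy₀⟩ := pre_of_sec e1 h0L (Submodule.zero_mem _)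
  have hy₀0 : y₀ ≠ 0 := by
    rintro rfl
    rw [smul_zero, add_zero] at hy₀
    rw [hτ, hy₀, inner_zero_right] at hτpos
    exact lt_irrefl _ hτpos
  have hu := hom_unique hcomp (a := y₀) (b := 0)
    ⟨hy₀K, hy₀S⟩ ⟨h0K, Submodule.zero_mem _⟩ hy₀0 hc hc₀ (e2.symm.trans e1)
  obtain ⟨rfl, -⟩ := hu
  exact mem_iff hc hqS hs hvS

/-- **Half-space theorem.** -/
theorem halfSpace {K L : Set E} (hKc : IsCompact K) (hK : closure (interior K) = K)
    (hLc : IsCompact L) (hL : closure (interior L) = L) (h0K : (0 : E) ∈ K) (h0L : (0 : E) ∈ L)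
    {k : ℕ} (hk : 2 ≤ k) (hkn : k + 1 ≤ Module.finrank ℝ E)
    (hsec : ∀ S : Submodule ℝ E, Module.finrank ℝ S = k →
      ∃ (x : E) (c : ℝ), 0 < c ∧ L ∩ (S : Set E) = hom x c '' (K ∩ (S : Set E)))
    (hconv : (0 : E) ∉ interior (convexHull ℝ K)) :
    ∃ (x : E) (c : ℝ), 0 < c ∧ L = hom x c '' K := by
  obtain ⟨f, hf⟩ := geometric_hahn_banach_open_point
    ((convex_convexHull ℝ K).interior) isOpen_interior hconv
  set ν : E := (InnerProductSpace.toDual ℝ E).symm f with hν
  have hfν : ∀ y, ⟪ν, y⟫ = f y := fun y => by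
    rw [hν, InnerProductSpace.toDual_symm_apply]
  have h1 : ∀ y ∈ interior K, f y < 0 := by
    intro y hy
    have := hf y (interior_mono (subset_convexHull ℝ K) hy)
    rwa [map_zero] at this
  have hKν : ∀ y ∈ K, ⟪ν, y⟫ ≤ 0 := by
    intro y hy
    have hcl : IsClosed {y : E | f y ≤ 0} := isClosed_le f.continuous continuous_const
    have : closure (interior K) ⊆ {y : E | f y ≤ 0} :=
      closure_minimal (fun y hy => (h1 y hy).le) hcl
    rw [hfν]
    exact this (hK.symm ▸ hy)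
  have hν0 : ν ≠ 0 := by
    intro h0
    have hne : (interior K).Nonempty := by
      rw [← closure_nonempty_iff, hK]; exact ⟨0, h0K⟩
    obtain ⟨w, hw⟩ := hne
    have := h1 w hw
    rw [← hfν, h0, inner_zero_left] at this
    exact lt_irrefl _ this
  by_cases hLν : ∃ y ∈ L, 0 < ⟪ν, y⟫
  · exact case_one hKc hK hL hLc h0K h0L hk hkn hsec hKν hLν
  · push Not at hLν
    exact case_two hKc hK hL hLc h0K h0L hk hkn hsec hν0 hKν hLν

end Pool.Agent.H63.Star
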