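import Pool.Agent.H63.Star.Iface

/-!
# Star bodies with homothetic sections: basic facts
-/

namespace Pool.Agent.H63.Star

open Set Filter Topology
open scoped RealInnerProductSpace

section Normed

variable {E : Type*} [NormedAddCommGroup E] [NormedSpace ℝ E] {F G : E → ℝ}

theorem IsGauge.zero (hF : IsGauge F) : F 0 = 0 := by
  have := hF.hom 0 0 le_rfl
  simpa using this

theorem IsGauge.nonneg (hF : IsGauge F) (x : E) : 0 ≤ F x := by
  rcases eq_or_ne x 0 with rfl | h
  · rw [hF.zero]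
  · exact (hF.pos x h).le

theorem IsGauge.eq_zero (hF : IsGauge F) {x : E} (h : F x = 0) : x = 0 := by
  by_contra hx
  exact (hF.pos x hx).ne' h

/-- The point of `S` with the same direction on the boundary. -/
theorem Rel.map {S : Submodule ℝ E} {x : E} {l : ℝ} (hF : IsGauge F) (hG : IsGauge G)
    (h : Rel F G S x l) {z : E} (hz : z ∈ S) : F (G z • x + l • z) = G z := by
  obtain ⟨hx, hl, h⟩ := h
  rcases eq_or_ne z 0 with rfl | hz0
  · rw [hG.zero]; simp [hF.zero]
  have hg : 0 < G z := hG.pos z hz0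
  set u : E := (G z)⁻¹ • z with hu
  have huS : u ∈ S := S.smul_mem _ hz
  have hGu : ∀ s : ℝ, 0 ≤ s → G (s • u) = s := by
    intro s hs
    rw [hG.hom s u hs, hu, hG.hom _ _ (inv_nonneg.2 hg.le), inv_mul_cancel₀ hg.ne', mul_one]
  have h1 : F (x + l • u) ≤ 1 := by
    rw [h u huS]
    have := hGu 1 zero_le_one
    rw [one_smul] at this
    rw [this]
  have h2 : 1 ≤ F (x + l • u) := by
    have ht : Tendsto (fun s : ℝ => F (x + l • (s • u))) (𝓝[>] 1) (𝓝 (F (x + l • ((1 : ℝ) • u)))) := by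
      have hc : Continuous fun s : ℝ => F (x + l • (s • u)) := by
        have := hF.cont
        fun_prop
      exact (hc.tendsto 1).mono_left nhdsWithin_le_nhds
    rw [one_smul] at ht
    refine ge_of_tendsto ht ?_
    filter_upwards [self_mem_nhdsWithin] with s hs
    have hs : 1 < s := hs
    by_contra hcon
    push Not at hcon
    have := (h (s • u) (S.smul_mem _ huS)).1 hcon.le
    rw [hGu s (by linarith)] at this
    linarith
  have h3 : F (x + l • u) = 1 := le_antisymm h1 h2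
  have h4 : G z • x + l • z = G z • (x + l • u) := by
    rw [smul_add, hu, smul_comm (G z) l, smul_smul (G z) (G z)⁻¹, mul_inv_cancel₀ hg.ne', one_smul]
  rw [h4, hF.hom _ _ hg.le, h3, mul_one]

theorem Rel.symm {S : Submodule ℝ E} {x : E} {l : ℝ} (h : Rel F G S x l) :
    Rel G F S (-(l⁻¹ • x)) l⁻¹ := by
  obtain ⟨hx, hl, h⟩ := h
  refine ⟨S.neg_mem (S.smul_mem _ hx), inv_pos.2 hl, fun z hz => ?_⟩
  rw [← h _ (S.add_mem (S.neg_mem (S.smul_mem _ hx)) (S.smul_mem _ hz))]
  have : x + l • (-(l⁻¹ • x) + l⁻¹ • z) = z := by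
    rw [smul_add, smul_neg, smul_smul, smul_smul, mul_inv_cancel₀ hl.ne', one_smul, one_smul,
      add_neg_cancel_left]
  rw [this]

/-- The first body is star-shaped with respect to the translation part. -/
theorem Rel.fourF {S : Submodule ℝ E} {x : E} {l : ℝ} (hF : IsGauge F) (hG : IsGauge G)
    (h : Rel F G S x l) {v : E} (hv : v ∈ S) {b : ℝ} (hb : 0 ≤ b) : F (v + b • x) ≤ F v + b := by
  have hfx : F x ≤ 1 := by
    have := (h.2.2 0 S.zero_mem).2 (by rw [hG.zero]; exact zero_le_one)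
    simpa using this
  rcases eq_or_ne v 0 with rfl | hv0
  · rw [zero_add, hF.zero, zero_add, hF.hom b x hb]
    nlinarith
  have hf : 0 < F v := hF.pos v hv0
  have hl := h.2.1
  have hN : 0 < F v + b := by linarith
  -- the point `v / F v` comes from `z₀`
  set z₀ : E := l⁻¹ • ((F v)⁻¹ • v - x) with hz₀
  have hz₀S : z₀ ∈ S := S.smul_mem _ (S.sub_mem (S.smul_mem _ hv) h.1)
  have e1 : x + l • z₀ = (F v)⁻¹ • v := by
    rw [hz₀, smul_smul, mul_inv_cancel₀ hl.ne', one_smul, add_sub_cancel]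
  have hGz₀ : G z₀ ≤ 1 := by
    rw [← h.2.2 z₀ hz₀S, e1, hF.hom _ _ (inv_nonneg.2 hf.le), inv_mul_cancel₀ hf.ne']
  have ht : 0 ≤ F v / (F v + b) := by positivity
  have ht1 : F v / (F v + b) ≤ 1 := by rw [div_le_one hN]; linarith
  have h1 : G ((F v / (F v + b)) • z₀) ≤ 1 := by
    rw [hG.hom _ _ ht]
    nlinarith [hG.nonneg z₀]
  have h2 := (h.2.2 _ (S.smul_mem (F v / (F v + b)) hz₀S)).2 h1
  have e2 : x + l • ((F v / (F v + b)) • z₀) = (F v + b)⁻¹ • (v + b • x) := by
    have : l • z₀ = (F v)⁻¹ • v - x := by rw [← e1]; abel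
    rw [smul_comm, this, smul_sub, smul_smul, smul_add, smul_smul]
    have c1 : F v / (F v + b) * (F v)⁻¹ = (F v + b)⁻¹ := by field_simp
    rw [c1]
    have c2 : x - (F v / (F v + b)) • x = ((F v + b)⁻¹ * b) • x := by
      nth_rewrite 1 [← one_smul ℝ x]
      rw [← sub_smul]
      congr 1
      field_simp
      ring
    rw [← c2]
    abel
  rw [e2, hF.hom _ _ (inv_nonneg.2 hN.le)] at h2
  rw [inv_mul_le_iff₀ hN] at h2
  linarith

theorem Rel.fourG {S : Submodule ℝ E} {x : E} {l : ℝ} (hF : IsGauge F) (hG : IsGauge G)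
    (h : Rel F G S x l) {v : E} (hv : v ∈ S) {b : ℝ} (hb : 0 ≤ b) :
    G v - l * b ≤ G (v + b • x) := by
  have h1 := h.symm.fourF hG hF (v := v + b • x) (S.add_mem hv (S.smul_mem _ h.1))
    (b := l * b) (mul_nonneg h.2.1.le hb)
  have e : v + b • x + (l * b) • (-(l⁻¹ • x)) = v := by
    rw [smul_neg, smul_smul, mul_comm l b, mul_assoc, mul_inv_cancel₀ h.2.1.ne', mul_one]
    abel
  rw [e] at h1
  linarith

theorem Rel.F_le_one {S : Submodule ℝ E} {x : E} {l : ℝ} (hG : IsGauge G)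
    (h : Rel F G S x l) : F x ≤ 1 := by
  have := (h.2.2 0 S.zero_mem).2 (by rw [hG.zero]; exact zero_le_one)
  simpa using this

section Fin

variable [FiniteDimensional ℝ E]

theorem IsGauge.lower (hF : IsGauge F) : ∃ m : ℝ, 0 < m ∧ ∀ x, m * ‖x‖ ≤ F x := by
  have hc : IsCompact (Metric.sphere (0 : E) 1) := isCompact_sphere 0 1
  rcases (Metric.sphere (0 : E) 1).eq_empty_or_nonempty with he | hne
  · refine ⟨1, one_pos, fun x => ?_⟩
    rcases eq_or_ne x 0 with rfl | hx
    · simp [hF.zero]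
    · exfalso
      have : ‖x‖⁻¹ • x ∈ Metric.sphere (0 : E) 1 := by
        rw [mem_sphere_zero_iff_norm, norm_smul, norm_inv, norm_norm,
          inv_mul_cancel₀ (norm_ne_zero_iff.2 hx)]
      rw [he] at this
      exact this
  · obtain ⟨u, hu, hmin⟩ := hc.exists_isMinOn hne hF.cont.continuousOn
    have hu0 : u ≠ 0 := by
      rintro rfl
      simp at hu
    refine ⟨F u, hF.pos u hu0, fun x => ?_⟩
    rcases eq_or_ne x 0 with rfl | hx
    · simp [hF.zero]
    · have hn : 0 < ‖x‖ := norm_pos_iff.2 hx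
      have h1 : ‖x‖⁻¹ • x ∈ Metric.sphere (0 : E) 1 := by
        rw [mem_sphere_zero_iff_norm, norm_smul, norm_inv, norm_norm, inv_mul_cancel₀ hn.ne']
      have h2 : F u ≤ F (‖x‖⁻¹ • x) := hmin h1
      rw [hF.hom _ _ (inv_nonneg.2 hn.le)] at h2
      have h3 := mul_le_mul_of_nonneg_right h2 hn.le
      rwa [mul_comm (‖x‖⁻¹), mul_assoc, inv_mul_cancel₀ hn.ne', mul_one] at h3

theorem IsGauge.upper (hF : IsGauge F) : ∃ M : ℝ, 0 < M ∧ ∀ x, F x ≤ M * ‖x‖ := by
  have hc : IsCompact (Metric.closedBall (0 : E) 1) := isCompact_closedBall 0 1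
  obtain ⟨u, hu, hmax⟩ := hc.exists_isMaxOn ⟨0, by simp⟩ hF.cont.continuousOn
  refine ⟨F u + 1, by have := hF.nonneg u; linarith, fun x => ?_⟩
  rcases eq_or_ne x 0 with rfl | hx
  · simp [hF.zero]
  · have hn : 0 < ‖x‖ := norm_pos_iff.2 hx
    have h1 : ‖x‖⁻¹ • x ∈ Metric.closedBall (0 : E) 1 := by
      rw [mem_closedBall_zero_iff, norm_smul, norm_inv, norm_norm, inv_mul_cancel₀ hn.ne']
    have h2 : F (‖x‖⁻¹ • x) ≤ F u := hmax h1
    rw [hF.hom _ _ (inv_nonneg.2 hn.le)] at h2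
    have h3 := mul_le_mul_of_nonneg_right h2 hn.le
    rw [mul_comm (‖x‖⁻¹), mul_assoc, inv_mul_cancel₀ hn.ne', mul_one] at h3
    linarith

/-- The homothety is unique. -/
theorem Rel.unique {S : Submodule ℝ E} (hS : S ≠ ⊥) (_hF : IsGauge F) (hG : IsGauge G)
    {x x' : E} {l l' : ℝ} (h : Rel F G S x l) (h' : Rel F G S x' l') : x = x' ∧ l = l' := by
  obtain ⟨m, hm, hlow⟩ := hG.lower
  have hbd : ∀ z, G z ≤ 1 → ‖z‖ ≤ 1 / m := fun z hz => by
    rw [le_div_iff₀ hm, mul_comm]; exact (hlow z).trans hz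
  set A : Set E := {z | G z ≤ 1} ∩ S with hA
  have hAc : IsCompact A := by
    refine Metric.isCompact_of_isClosed_isBounded ?_ ?_
    · exact (isClosed_le hG.cont continuous_const).inter (Submodule.closed_of_finiteDimensional S)
    · exact (Metric.isBounded_closedBall (x := (0 : E)) (r := 1 / m)).subset fun z hz => by
        rw [mem_closedBall_zero_iff]; exact hbd z hz.1
  have h0A : (0 : E) ∈ A := ⟨by simp [hG.zero], S.zero_mem⟩
  obtain ⟨b, hbS, hb0⟩ := Submodule.exists_mem_ne_zero_of_ne_bot hS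
  have hgb := hG.pos b hb0
  have hbA : (G b)⁻¹ • b ∈ A := ⟨by
    show G ((G b)⁻¹ • b) ≤ 1
    rw [hG.hom _ _ (inv_nonneg.2 hgb.le), inv_mul_cancel₀ hgb.ne'], S.smul_mem _ hbS⟩
  have key : ∀ {x x' : E} {l l' : ℝ}, Rel F G S x l → Rel F G S x' l' → l ≤ l' := by
    intro x x' l l' h h'
    obtain ⟨⟨p, q⟩, hpq, hmax⟩ := (hAc.prod hAc).exists_isMaxOn ⟨(0, 0), ⟨h0A, h0A⟩⟩
      (f := fun z : E × E => dist z.1 z.2) (by fun_prop)
    have hpos : 0 < dist p q := by
      refine lt_of_lt_of_le ?_ (hmax (⟨hbA, h0A⟩ : ((G b)⁻¹ • b, (0 : E)) ∈ A ×ˢ A))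
      apply dist_pos.2
      exact smul_ne_zero (inv_ne_zero hgb.ne') hb0
    have hmem : ∀ z ∈ A, l'⁻¹ • (x + l • z - x') ∈ A := by
      intro z hz
      have hS' : l'⁻¹ • (x + l • z - x') ∈ S :=
        S.smul_mem _ (S.sub_mem (S.add_mem h.1 (S.smul_mem _ hz.2)) h'.1)
      refine ⟨?_, hS'⟩
      show G _ ≤ 1
      rw [← h'.2.2 _ hS', smul_smul, mul_inv_cancel₀ h'.2.1.ne', one_smul, add_sub_cancel,
        h.2.2 z hz.2]
      exact hz.1
    have h3 : dist (l'⁻¹ • (x + l • p - x')) (l'⁻¹ • (x + l • q - x')) ≤ dist p q :=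
      hmax (⟨hmem p hpq.1, hmem q hpq.2⟩ : (_, _) ∈ A ×ˢ A)
    rw [dist_eq_norm, ← smul_sub, sub_sub_sub_cancel_right, add_sub_add_left_eq_sub, ← smul_sub,
      smul_smul, norm_smul, ← dist_eq_norm, Real.norm_of_nonneg
        (mul_nonneg (inv_nonneg.2 h'.2.1.le) h.2.1.le)] at h3
    have h4 : l'⁻¹ * l ≤ 1 := by
      by_contra hcon
      push Not at hcon
      nlinarith
    rwa [inv_mul_le_iff₀ h'.2.1, mul_one] at h4
  have hll : l = l' := le_antisymm (key h h') (key h' h)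
  subst hll
  refine ⟨?_, rfl⟩
  set δ : E := l⁻¹ • (x - x') with hδ
  have hstep : ∀ z ∈ A, z + δ ∈ A := by
    intro z hz
    have hS' : z + δ ∈ S := S.add_mem hz.2 (S.smul_mem _ (S.sub_mem h.1 h'.1))
    refine ⟨?_, hS'⟩
    show G _ ≤ 1
    rw [← h'.2.2 _ hS']
    have : x' + l • (z + δ) = x + l • z := by
      rw [smul_add, hδ, smul_smul, mul_inv_cancel₀ h.2.1.ne', one_smul]; abel
    rw [this, h.2.2 z hz.2]
    exact hz.1
  have hn : ∀ n : ℕ, (n : ℝ) • δ ∈ A := by
    intro n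
    induction n with
    | zero => simpa using h0A
    | succ n ih =>
      have := hstep _ ih
      rw [Nat.cast_succ, add_smul, one_smul]
      exact this
  have hδ0 : δ = 0 := by
    by_contra hne
    have hpos : 0 < ‖δ‖ := norm_pos_iff.2 hne
    obtain ⟨n, hn'⟩ := exists_nat_gt (1 / m / ‖δ‖)
    have h1 := hbd _ (hn n).1
    rw [norm_smul, Real.norm_natCast] at h1
    rw [div_lt_iff₀ hpos] at hn'
    linarith
  have : x - x' = l • δ := by
    rw [hδ, smul_smul, mul_inv_cancel₀ h.2.1.ne', one_smul]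
  rw [hδ0, smul_zero] at this
  exact sub_eq_zero.1 this

end Fin

end Normed

section Family

variable {E : Type*} [NormedAddCommGroup E] [NormedSpace ℝ E] {F G : E → ℝ}
variable {V : Type*} [NormedAddCommGroup V] [NormedSpace ℝ V] [FiniteDimensional ℝ V]
variable {P : Type*} [TopologicalSpace P]

theorem IsGauge.comp (hF : IsGauge F) (Φ : V →ₗ[ℝ] E) (hΦ : ∀ v, v ≠ 0 → Φ v ≠ 0) :
    IsGauge (fun v => F (Φ v)) where
  cont := hF.cont.comp Φ.continuous_of_finiteDimensional
  hom t x ht := by simp only [map_smul]; exact hF.hom t _ ht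
  pos x hx := hF.pos _ (hΦ x hx)

/-- Uniform bounds for a continuous family of gauges. -/
theorem family_bounds (hF : IsGauge F) (Φ : P → V →ₗ[ℝ] E)
    (hΦc : Continuous fun q : P × V => Φ q.1 q.2) (p₀ : P) (hinj : ∀ v, v ≠ 0 → Φ p₀ v ≠ 0) :
    ∃ m M : ℝ, 0 < m ∧ 0 < M ∧ ∀ᶠ p in 𝓝 p₀, ∀ v, m * ‖v‖ ≤ F (Φ p v) ∧ F (Φ p v) ≤ M * ‖v‖ := by
  have hg := hF.comp (Φ p₀) hinj
  obtain ⟨m, hm, hlow⟩ := hg.lower
  obtain ⟨M, hM, hup⟩ := hg.upper
  refine ⟨m / 2, M + 1, by positivity, by positivity, ?_⟩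
  have hc : IsCompact (Metric.sphere (0 : V) 1) := isCompact_sphere 0 1
  have hcont : Continuous fun q : P × V => F (Φ q.1 q.2) := hF.cont.comp hΦc
  have h1 : ∀ᶠ p in 𝓝 p₀, ∀ v ∈ Metric.sphere (0 : V) 1, m / 2 < F (Φ p v) ∧ F (Φ p v) < M + 1 := by
    apply hc.eventually_forall_of_forall_eventually
    intro v hv
    rw [mem_sphere_zero_iff_norm] at hv
    have hl := hlow v
    have hu := hup v
    rw [hv, mul_one] at hl hu
    have e1 : ∀ᶠ z : P × V in 𝓝 (p₀, v), m / 2 < F (Φ z.1 z.2) :=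
      (hcont.tendsto (p₀, v)).eventually (lt_mem_nhds (by show m / 2 < F (Φ p₀ v); linarith))
    have e2 : ∀ᶠ z : P × V in 𝓝 (p₀, v), F (Φ z.1 z.2) < M + 1 :=
      (hcont.tendsto (p₀, v)).eventually (gt_mem_nhds (by show F (Φ p₀ v) < M + 1; linarith))
    exact e1.and e2
  filter_upwards [h1] with p hp v
  rcases eq_or_ne v 0 with rfl | hv
  · simp [hF.zero]
  · have hn : 0 < ‖v‖ := norm_pos_iff.2 hv
    have h2 := hp (‖v‖⁻¹ • v) (by
      rw [mem_sphere_zero_iff_norm, norm_smul, norm_inv, norm_norm, inv_mul_cancel₀ hn.ne'])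
    rw [map_smul, hF.hom _ _ (inv_nonneg.2 hn.le)] at h2
    have e : ‖v‖ * (‖v‖⁻¹ * F (Φ p v)) = F (Φ p v) := by
      rw [← mul_assoc, mul_inv_cancel₀ hn.ne', one_mul]
    constructor
    · have := mul_le_mul_of_nonneg_left h2.1.le hn.le
      rw [e] at this; linarith
    · have := mul_le_mul_of_nonneg_left h2.2.le hn.le
      rw [e] at this; linarith

/-- Continuity of the homothety in a family of sections. -/
theorem family_cont [Nontrivial V] (hF : IsGauge F) (hG : IsGauge G) (Φ : P → V →ₗ[ℝ] E)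
    (hΦc : Continuous fun q : P × V => Φ q.1 q.2) (p₀ : P) (hinj : ∀ v, v ≠ 0 → Φ p₀ v ≠ 0)
    (ξ : P → V) (l : P → ℝ)
    (h : ∀ᶠ p in 𝓝 p₀, 0 < l p ∧ ∀ z : V, (F (Φ p (ξ p + l p • z)) ≤ 1 ↔ G (Φ p z) ≤ 1)) :
    ContinuousAt ξ p₀ ∧ ContinuousAt l p₀ := by
  obtain ⟨m₁, M₁, hm₁, hM₁, hFb⟩ := family_bounds hF Φ hΦc p₀ hinj
  obtain ⟨m₂, M₂, hm₂, hM₂, hGb⟩ := family_bounds hG Φ hΦc p₀ hinj
  obtain ⟨u, hu⟩ := exists_norm_eq V (show (0 : ℝ) ≤ 1 from zero_le_one)
  have hlin : ∀ᶠ p in 𝓝 p₀, (‖ξ p‖ ≤ 1 / m₁ ∧ l p ≤ M₂ / m₁) ∧ m₂ / M₁ ≤ l p := by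
    filter_upwards [h, hFb, hGb] with p hp hFp hGp
    obtain ⟨hl, hp⟩ := hp
    have hnorm : ∀ z : V, G (Φ p z) ≤ 1 → ‖ξ p + l p • z‖ ≤ 1 / m₁ := by
      intro z hz
      rw [le_div_iff₀ hm₁, mul_comm]
      exact ((hFp _).1).trans ((hp z).2 hz)
    have hnormG : ∀ w : V, F (Φ p w) ≤ 1 → ‖w - ξ p‖ ≤ l p / m₂ := by
      intro w hw
      have e : ξ p + l p • ((l p)⁻¹ • (w - ξ p)) = w := by
        rw [smul_smul, mul_inv_cancel₀ hl.ne', one_smul, add_sub_cancel]
      have h1 : G (Φ p ((l p)⁻¹ • (w - ξ p))) ≤ 1 := by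
        rw [← hp, e]; exact hw
      have h2 := (hGp ((l p)⁻¹ • (w - ξ p))).1.trans h1
      rw [norm_smul, norm_inv, Real.norm_of_nonneg hl.le] at h2
      rw [le_div_iff₀ hm₂]
      have h3 : l p * (m₂ * ((l p)⁻¹ * ‖w - ξ p‖)) ≤ l p * 1 := mul_le_mul_of_nonneg_left h2 hl.le
      have e2 : l p * (m₂ * ((l p)⁻¹ * ‖w - ξ p‖)) = ‖w - ξ p‖ * m₂ := by
        field_simp
      rw [e2, mul_one] at h3
      exact h3
    have hGs : ∀ s : ℝ, |s| ≤ 1 / M₂ → G (Φ p (s • u)) ≤ 1 := by
      intro s hs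
      refine (hGp _).2.trans ?_
      rw [norm_smul, hu, mul_one, Real.norm_eq_abs]
      rw [le_div_iff₀ hM₂] at hs
      linarith
    have hFs : ∀ s : ℝ, |s| ≤ 1 / M₁ → F (Φ p (s • u)) ≤ 1 := by
      intro s hs
      refine (hFp _).2.trans ?_
      rw [norm_smul, hu, mul_one, Real.norm_eq_abs]
      rw [le_div_iff₀ hM₁] at hs
      linarith
    have a1 : |(1 / M₂ : ℝ)| ≤ 1 / M₂ := by rw [abs_of_pos (by positivity)]
    have a2 : |(-(1 / M₂) : ℝ)| ≤ 1 / M₂ := by rw [abs_neg]; exact a1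
    have a3 : |(1 / M₁ : ℝ)| ≤ 1 / M₁ := by rw [abs_of_pos (by positivity)]
    have a4 : |(-(1 / M₁) : ℝ)| ≤ 1 / M₁ := by rw [abs_neg]; exact a3
    refine ⟨⟨?_, ?_⟩, ?_⟩
    · have := hnorm 0 (by rw [map_zero, hG.zero]; exact zero_le_one)
      simpa using this
    · have b1 := hnorm _ (hGs _ a1)
      have b2 := hnorm _ (hGs _ a2)
      have b3 : ‖(ξ p + l p • ((1 / M₂ : ℝ) • u)) - (ξ p + l p • ((-(1 / M₂) : ℝ) • u))‖
          ≤ 1 / m₁ + 1 / m₁ := (norm_sub_le _ _).trans (add_le_add b1 b2)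
      have e : (ξ p + l p • ((1 / M₂ : ℝ) • u)) - (ξ p + l p • ((-(1 / M₂) : ℝ) • u))
          = (l p * (2 / M₂)) • u := by
        rw [add_sub_add_left_eq_sub, ← smul_sub, ← sub_smul, smul_smul]
        congr 1; ring
      rw [e, norm_smul, hu, mul_one, Real.norm_of_nonneg (by positivity)] at b3
      rw [le_div_iff₀ hm₁]
      have b4 : l p * (2 / M₂) * (M₂ * m₁) ≤ (1 / m₁ + 1 / m₁) * (M₂ * m₁) :=
        mul_le_mul_of_nonneg_right b3 (by positivity)
      have e1 : l p * (2 / M₂) * (M₂ * m₁) = 2 * (l p * m₁) := by field_simp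
      have e2 : (1 / m₁ + 1 / m₁) * (M₂ * m₁) = 2 * M₂ := by field_simp; ring
      rw [e1, e2] at b4
      linarith
    · have b1 := hnormG _ (hFs _ a3)
      have b2 := hnormG _ (hFs _ a4)
      have b3 : ‖((1 / M₁ : ℝ) • u - ξ p) - ((-(1 / M₁) : ℝ) • u - ξ p)‖
          ≤ l p / m₂ + l p / m₂ := (norm_sub_le _ _).trans (add_le_add b1 b2)
      have e : ((1 / M₁ : ℝ) • u - ξ p) - ((-(1 / M₁) : ℝ) • u - ξ p) = (2 / M₁ : ℝ) • u := by
        rw [sub_sub_sub_cancel_right, ← sub_smul]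
        congr 1; ring
      rw [e, norm_smul, hu, mul_one, Real.norm_of_nonneg (by positivity)] at b3
      rw [div_le_iff₀ hM₁]
      have b4 : 2 / M₁ * (M₁ * m₂) ≤ (l p / m₂ + l p / m₂) * (M₁ * m₂) :=
        mul_le_mul_of_nonneg_right b3 (by positivity)
      have e1 : 2 / M₁ * (M₁ * m₂) = 2 * m₂ := by field_simp
      have e2 : (l p / m₂ + l p / m₂) * (M₁ * m₂) = 2 * (l p * M₁) := by field_simp; ring
      rw [e1, e2] at b4
      linarith
  -- cluster points
  set f : P → V × ℝ := fun p => (ξ p, l p) with hf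
  have hgF := hF.comp (Φ p₀) hinj
  have hgG := hG.comp (Φ p₀) hinj
  have hrel₀ : Rel (fun v => F (Φ p₀ v)) (fun v => G (Φ p₀ v)) ⊤ (ξ p₀) (l p₀) := by
    obtain ⟨h1, h2⟩ := h.self_of_nhds
    exact ⟨Submodule.mem_top, h1, fun z _ => h2 z⟩
  have hmain : Tendsto f (𝓝 p₀) (𝓝 (f p₀)) := by
    have hK : IsCompact (Metric.closedBall (0 : V) (1 / m₁) ×ˢ Icc (m₂ / M₁) (M₂ / m₁)) :=
      (isCompact_closedBall 0 _).prod isCompact_Icc
    refine hK.tendsto_nhds_of_unique_mapClusterPt ?_ ?_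
    · filter_upwards [hlin] with p hp
      exact ⟨by rw [mem_closedBall_zero_iff]; exact hp.1.1, hp.2, hp.1.2⟩
    · rintro ⟨ξ', l'⟩ hx hcl
      rw [mapClusterPt_iff_ultrafilter] at hcl
      obtain ⟨U, hU, hUt⟩ := hcl
      have hξ : Tendsto ξ U (𝓝 ξ') := (continuous_fst.tendsto _).comp hUt
      have hl : Tendsto l U (𝓝 l') := (continuous_snd.tendsto _).comp hUt
      have hl' : 0 < l' := lt_of_lt_of_le (by positivity) hx.2.1
      have hpU : Tendsto (fun p => p) (U : Filter P) (𝓝 p₀) := hU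
      have hev : ∀ᶠ p in (U : Filter P), 0 < l p ∧
          ∀ z : V, (F (Φ p (ξ p + l p • z)) ≤ 1 ↔ G (Φ p z) ≤ 1) := hU h
      have tF : ∀ (w : P → V) (w' : V), Tendsto w U (𝓝 w') →
          Tendsto (fun p => F (Φ p (w p))) U (𝓝 (F (Φ p₀ w'))) := by
        intro w w' hw
        have h1 : Tendsto (fun p => (p, w p)) (U : Filter P) (𝓝 (p₀, w')) := hpU.prodMk_nhds hw
        exact ((hF.cont.comp hΦc).tendsto (p₀, w')).comp h1
      have tG : ∀ (w : P → V) (w' : V), Tendsto w U (𝓝 w') →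
          Tendsto (fun p => G (Φ p (w p))) U (𝓝 (G (Φ p₀ w'))) := by
        intro w w' hw
        have h1 : Tendsto (fun p => (p, w p)) (U : Filter P) (𝓝 (p₀, w')) := hpU.prodMk_nhds hw
        exact ((hG.cont.comp hΦc).tendsto (p₀, w')).comp h1
      have s1 : ∀ z : V, G (Φ p₀ z) < 1 → F (Φ p₀ (ξ' + l' • z)) ≤ 1 := by
        intro z hz
        have e1 : ∀ᶠ p in (U : Filter P), G (Φ p z) < 1 :=
          (tG (fun _ => z) z tendsto_const_nhds).eventually (gt_mem_nhds hz)
        refine le_of_tendsto (tF (fun p => ξ p + l p • z) _ (hξ.add (hl.smul_const z))) ?_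
        filter_upwards [e1, hev] with p h1 h2
        exact (h2.2 z).2 h1.le
      have s2 : ∀ w : V, F (Φ p₀ w) < 1 → G (Φ p₀ (l'⁻¹ • (w - ξ'))) ≤ 1 := by
        intro w hw
        have e1 : ∀ᶠ p in (U : Filter P), F (Φ p w) < 1 :=
          (tF (fun _ => w) w tendsto_const_nhds).eventually (gt_mem_nhds hw)
        refine le_of_tendsto (tG (fun p => (l p)⁻¹ • (w - ξ p)) _
          ((hl.inv₀ hl'.ne').smul (tendsto_const_nhds.sub hξ))) ?_
        filter_upwards [e1, hev] with p h1 h2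
        rw [← h2.2, smul_smul, mul_inv_cancel₀ h2.1.ne', one_smul, add_sub_cancel]
        exact h1.le
      have hl1 : Tendsto (fun s : ℝ => s) (𝓝[<] 1) (𝓝 1) := tendsto_id.mono_left nhdsWithin_le_nhds
      have hlt : ∀ {H : V → ℝ}, IsGauge H → ∀ z : V, H z ≤ 1 → ∀ s : ℝ, 0 < s → s < 1 →
          H (s • z) < 1 := by
        intro H hH z hz s hs0 hs1
        rw [hH.hom s z hs0.le]
        have := hH.nonneg z
        nlinarith
      have s1' : ∀ z : V, G (Φ p₀ z) ≤ 1 → F (Φ p₀ (ξ' + l' • z)) ≤ 1 := by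
        intro z hz
        have hc : Continuous fun s : ℝ => F (Φ p₀ (ξ' + l' • (s • z))) := by
          have := hgF.cont
          exact this.comp (by fun_prop)
        have ht : Tendsto (fun s : ℝ => F (Φ p₀ (ξ' + l' • (s • z)))) (𝓝[<] 1)
            (𝓝 (F (Φ p₀ (ξ' + l' • z)))) := by
          have := (hc.tendsto 1).mono_left (nhdsWithin_le_nhds (s := Iio (1 : ℝ)))
          simpa using this
        refine le_of_tendsto ht ?_
        have h0 : ∀ᶠ s : ℝ in 𝓝[<] 1, 0 < s := nhdsWithin_le_nhds (lt_mem_nhds one_pos)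
        filter_upwards [h0, self_mem_nhdsWithin] with s hs0 hs1
        exact s1 _ (hlt hgG z hz s hs0 hs1)
      have s2' : ∀ w : V, F (Φ p₀ w) ≤ 1 → G (Φ p₀ (l'⁻¹ • (w - ξ'))) ≤ 1 := by
        intro w hw
        have hc : Continuous fun s : ℝ => G (Φ p₀ (l'⁻¹ • (s • w - ξ'))) := by
          have := hgG.cont
          exact this.comp (by fun_prop)
        have ht : Tendsto (fun s : ℝ => G (Φ p₀ (l'⁻¹ • (s • w - ξ')))) (𝓝[<] 1)
            (𝓝 (G (Φ p₀ (l'⁻¹ • (w - ξ'))))) := by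
          have := (hc.tendsto 1).mono_left (nhdsWithin_le_nhds (s := Iio (1 : ℝ)))
          simpa using this
        refine le_of_tendsto ht ?_
        have h0 : ∀ᶠ s : ℝ in 𝓝[<] 1, 0 < s := nhdsWithin_le_nhds (lt_mem_nhds one_pos)
        filter_upwards [h0, self_mem_nhdsWithin] with s hs0 hs1
        exact s2 _ (hlt hgF w hw s hs0 hs1)
      have hrel : Rel (fun v => F (Φ p₀ v)) (fun v => G (Φ p₀ v)) ⊤ ξ' l' := by
        refine ⟨Submodule.mem_top, hl', fun z _ => ⟨fun hz => ?_, fun hz => s1' z hz⟩⟩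
        have := s2' _ hz
        rwa [add_sub_cancel_left, smul_smul, inv_mul_cancel₀ hl'.ne', one_smul] at this
      have hT : (⊤ : Submodule ℝ V) ≠ ⊥ := top_ne_bot
      obtain ⟨e1, e2⟩ := hrel.unique hT hgF hgG hrel₀
      rw [hf, e1, e2]
  exact ⟨(continuous_fst.tendsto _).comp hmain, (continuous_snd.tendsto _).comp hmain⟩

end Family

section Pairs

variable {E : Type*} [NormedAddCommGroup E] [NormedSpace ℝ E] {F G : E → ℝ}

theorem finrank_span_pair {a b : E} (h : LinearIndependent ℝ ![a, b]) :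
    Module.finrank ℝ (Submodule.span ℝ {a, b}) = 2 := by
  have h1 := finrank_span_eq_card h
  rw [Matrix.range_cons, Matrix.range_cons, Matrix.range_empty, union_empty] at h1
  rw [← singleton_union]
  simpa using h1

theorem span_pair_ne_bot {a b : E} (h : LinearIndependent ℝ ![a, b]) :
    Submodule.span ℝ {a, b} ≠ ⊥ := by
  intro h0
  have := finrank_span_pair h
  rw [h0, finrank_bot] at this
  omega

theorem Planar.rel (hP : Planar F G) {a b : E} (h : LinearIndependent ℝ ![a, b]) :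
    Rel F G (Submodule.span ℝ {a, b}) (ctr F G a b) (rat F G a b) := by
  obtain ⟨x, l, hxl⟩ := hP _ (finrank_span_pair h)
  have hex : ∃ p : E × ℝ, Rel F G (Submodule.span ℝ {a, b}) p.1 p.2 := ⟨(x, l), hxl⟩
  unfold ctr rat
  rw [dif_pos hex, dif_pos hex]
  exact hex.choose_spec

theorem ctr_mem (F G : E → ℝ) (a b : E) : ctr F G a b ∈ Submodule.span ℝ {a, b} := by
  unfold ctr
  split_ifs with h
  · exact h.choose_spec.1
  · exact Submodule.zero_mem _

theorem rat_pos (F G : E → ℝ) (a b : E) : 0 < rat F G a b := by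
  unfold rat
  split_ifs with h
  · exact h.choose_spec.2.1
  · exact one_pos

theorem ctr_congr {a b a' b' : E} (h : Submodule.span ℝ {a, b} = Submodule.span ℝ {a', b'}) :
    ctr F G a b = ctr F G a' b' := by
  unfold ctr; rw [h]

theorem rat_congr {a b a' b' : E} (h : Submodule.span ℝ {a, b} = Submodule.span ℝ {a', b'}) :
    rat F G a b = rat F G a' b' := by
  unfold rat; rw [h]

/-- The linear map `(s, t) ↦ s • a + t • b`. -/
noncomputable def pairMap (p : E × E) : ℝ × ℝ →ₗ[ℝ] E :=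
  (LinearMap.toSpanSingleton ℝ E p.1).coprod (LinearMap.toSpanSingleton ℝ E p.2)

theorem pairMap_apply (p : E × E) (z : ℝ × ℝ) : pairMap p z = z.1 • p.1 + z.2 • p.2 := by
  simp [pairMap]

theorem pairMap_cont : Continuous fun q : (E × E) × (ℝ × ℝ) => pairMap q.1 q.2 := by
  simp only [pairMap_apply]
  fun_prop

theorem pairMap_ne {a b : E} (h : LinearIndependent ℝ ![a, b]) (v : ℝ × ℝ) (hv : v ≠ 0) :
    pairMap (a, b) v ≠ 0 := by
  intro h0
  rw [pairMap_apply] at h0
  have := LinearIndependent.pair_iff.1 h v.1 v.2 h0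
  exact hv (Prod.ext this.1 this.2)

theorem indep_iff_eventually {a b : E} (h : LinearIndependent ℝ ![a, b]) :
    ∀ᶠ p : E × E in 𝓝 (a, b), LinearIndependent ℝ ![p.1, p.2] := by
  have ho : IsOpen {f : Fin 2 → E | LinearIndependent ℝ f} := isOpen_setOfPred_linearIndependent
  have hc : Continuous fun p : E × E => (![p.1, p.2] : Fin 2 → E) := by
    refine continuous_pi fun i => ?_
    fin_cases i
    · exact continuous_fst
    · exact continuous_snd
  exact (hc.tendsto (a, b)).eventually (ho.mem_nhds h)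

theorem indep_smul {a b : E} (h : LinearIndependent ℝ ![a, b]) {s t c : ℝ} (hs : s ≠ 0)
    (ht : t ≠ 0) : LinearIndependent ℝ ![s • a, t • b + c • a] := by
  rw [LinearIndependent.pair_iff] at h ⊢
  intro x y hxy
  have h1 := h (x * s + y * c) (y * t) (by
    rw [← hxy]; module)
  have hy : y = 0 := by
    rcases mul_eq_zero.1 h1.2 with h | h
    · exact h
    · exact absurd h ht
  rw [hy, zero_mul, add_zero] at h1
  refine ⟨?_, hy⟩
  rcases mul_eq_zero.1 h1.1 with h | h
  · exact h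
  · exact absurd h hs

theorem span_smul {a b : E} {s t c : ℝ} (hs : s ≠ 0) (ht : t ≠ 0) :
    Submodule.span ℝ {s • a, t • b + c • a} = Submodule.span ℝ {a, b} := by
  apply le_antisymm
  · rw [Submodule.span_le]
    rintro z (rfl | rfl)
    · exact Submodule.smul_mem _ _ (Submodule.subset_span (by simp))
    · exact Submodule.add_mem _ (Submodule.smul_mem _ _ (Submodule.subset_span (by simp)))
        (Submodule.smul_mem _ _ (Submodule.subset_span (by simp)))
  · rw [Submodule.span_le]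
    have ha : a ∈ Submodule.span ℝ {s • a, t • b + c • a} := by
      have h1 : s • a ∈ Submodule.span ℝ {s • a, t • b + c • a} :=
        Submodule.subset_span (by simp)
      have h2 := Submodule.smul_mem _ s⁻¹ h1
      rwa [smul_smul, inv_mul_cancel₀ hs, one_smul] at h2
    have hb : b ∈ Submodule.span ℝ {s • a, t • b + c • a} := by
      have h1 : t • b + c • a ∈ Submodule.span ℝ {s • a, t • b + c • a} :=
        Submodule.subset_span (by simp)
      have h2 := Submodule.smul_mem _ t⁻¹ (Submodule.sub_mem _ h1 (Submodule.smul_mem _ c ha))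
      rwa [add_sub_cancel_right, smul_smul, inv_mul_cancel₀ ht, one_smul] at h2
    rintro z (rfl | rfl)
    · exact ha
    · exact hb

variable [FiniteDimensional ℝ E]

omit [FiniteDimensional ℝ E] in
theorem ctr_cont_aux (hP : Planar F G) (hF : IsGauge F) (hG : IsGauge G) {a b : E}
    (h : LinearIndependent ℝ ![a, b]) :
    ContinuousAt (fun p : E × E => ctr F G p.1 p.2) (a, b) ∧
    ContinuousAt (fun p : E × E => rat F G p.1 p.2) (a, b) := by
  have hex : ∀ p : E × E, ∃ v : ℝ × ℝ, pairMap p v = ctr F G p.1 p.2 := by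
    intro p
    obtain ⟨s, t, hst⟩ := Submodule.mem_span_pair.1 (ctr_mem F G p.1 p.2)
    exact ⟨(s, t), by rw [pairMap_apply]; exact hst⟩
  choose ξ hξ using hex
  have hfam := family_cont hF hG pairMap pairMap_cont (a, b) (pairMap_ne h) ξ
    (fun p => rat F G p.1 p.2) (by
      filter_upwards [indep_iff_eventually h] with p hp
      obtain ⟨h1, h2, h3⟩ := hP.rel hp
      refine ⟨h2, fun z => ?_⟩
      have hz : pairMap p z ∈ Submodule.span ℝ {p.1, p.2} := by
        rw [pairMap_apply]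
        exact Submodule.mem_span_pair.2 ⟨z.1, z.2, rfl⟩
      rw [← h3 _ hz, map_add, map_smul, hξ])
  refine ⟨?_, hfam.2⟩
  have : (fun p : E × E => ctr F G p.1 p.2) = fun p => pairMap p (ξ p) := by
    funext p; rw [hξ]
  rw [this]
  have h1 : ContinuousAt (fun p : E × E => (p, ξ p)) (a, b) := continuousAt_id.prodMk hfam.1
  exact (pairMap_cont.tendsto _).comp h1

omit [FiniteDimensional ℝ E] in
theorem ctr_cont (hP : Planar F G) (hF : IsGauge F) (hG : IsGauge G) {a b : E}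
    (h : LinearIndependent ℝ ![a, b]) :
    ContinuousAt (fun p : E × E => ctr F G p.1 p.2) (a, b) := (ctr_cont_aux hP hF hG h).1

omit [FiniteDimensional ℝ E] in
theorem rat_cont (hP : Planar F G) (hF : IsGauge F) (hG : IsGauge G) {a b : E}
    (h : LinearIndependent ℝ ![a, b]) :
    ContinuousAt (fun p : E × E => rat F G p.1 p.2) (a, b) := (ctr_cont_aux hP hF hG h).2

omit [FiniteDimensional ℝ E] in
theorem Planar.symm (hP : Planar F G) : Planar G F := fun S hS => by
  obtain ⟨x, l, h⟩ := hP S hS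
  exact ⟨_, _, h.symm⟩

theorem ctr_symm (hP : Planar F G) (hF : IsGauge F) (hG : IsGauge G) {a b : E}
    (h : LinearIndependent ℝ ![a, b]) :
    ctr G F a b = -((rat F G a b)⁻¹ • ctr F G a b) ∧ rat G F a b = (rat F G a b)⁻¹ :=
  (hP.symm.rel h).unique (span_pair_ne_bot h) hG hF (hP.rel h).symm

/-- The plane spanned by `v`, `d` is centred at `v`. -/
def Cen (F G : E → ℝ) (v d : E) : Prop := ∃ c : ℝ, ctr F G v d = c • v

theorem Cen.symm (hP : Planar F G) (hF : IsGauge F) (hG : IsGauge G) {v d : E}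
    (h : LinearIndependent ℝ ![v, d]) (hc : Cen F G v d) : Cen G F v d := by
  obtain ⟨c, hc⟩ := hc
  refine ⟨-((rat F G v d)⁻¹ * c), ?_⟩
  rw [(ctr_symm hP hF hG h).1, hc, smul_smul, neg_smul]

omit [FiniteDimensional ℝ E] in
theorem Cen.congr {v d v' d' : E} (h : Cen F G v d)
    (hs : Submodule.span ℝ {v, d} = Submodule.span ℝ {v', d'}) {t : ℝ} (ht : v = t • v') :
    Cen F G v' d' := by
  obtain ⟨c, hc⟩ := h
  refine ⟨c * t, ?_⟩
  rw [← ctr_congr hs, hc, ht, smul_smul]

omit [FiniteDimensional ℝ E] in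
theorem Cen.smul_add {v d : E} (h : Cen F G v d) {s t c : ℝ} (hs : s ≠ 0) (ht : t ≠ 0) :
    Cen F G (s • v) (t • d + c • v) := by
  refine h.congr (span_smul hs ht).symm (t := s⁻¹) ?_
  rw [smul_smul, inv_mul_cancel₀ hs, one_smul]

omit [FiniteDimensional ℝ E] in
theorem Cen.smul_right {v d : E} (h : Cen F G v d) {t : ℝ} (ht : t ≠ 0) :
    Cen F G v (t • d) := by
  have := h.smul_add (s := 1) (t := t) (c := 0) one_ne_zero ht
  simpa using this

end Pairs

section Inner

variable {E : Type*} [NormedAddCommGroup E] [InnerProductSpace ℝ E] {F G : E → ℝ}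

/-- Closedness of the relation `Cen`. -/
theorem Cen.of_tendsto (hP : Planar F G) (hF : IsGauge F) (hG : IsGauge G) {ι : Type*}
    {L : Filter ι} [L.NeBot] {v d : ι → E} {v₀ d₀ : E} (h : LinearIndependent ℝ ![v₀, d₀])
    (hv : Tendsto v L (𝓝 v₀)) (hd : Tendsto d L (𝓝 d₀)) (hc : ∃ᶠ i in L, Cen F G (v i) (d i)) :
    Cen F G v₀ d₀ := by
  have hv0 : v₀ ≠ 0 := by
    have := h.ne_zero 0
    simpa using this
  set H : E × E → E := fun p => ‖p.1‖ ^ 2 • ctr F G p.1 p.2 - ⟪p.1, ctr F G p.1 p.2⟫ • p.1 with hH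
  have hHc : ContinuousAt H (v₀, d₀) := by
    have h1 := ctr_cont hP hF hG h
    have h2 : ContinuousAt (fun p : E × E => p.1) (v₀, d₀) := continuousAt_fst
    exact ((h2.norm.pow 2).smul h1).sub ((h2.inner h1).smul h2)
  have ht : Tendsto (fun i => H (v i, d i)) L (𝓝 (H (v₀, d₀))) :=
    hHc.tendsto.comp (hv.prodMk_nhds hd)
  have hz : H (v₀, d₀) = 0 := by
    by_contra hne
    have h1 : ∀ᶠ i in L, H (v i, d i) ≠ 0 := ht.eventually_ne hne
    obtain ⟨i, hi1, hi2⟩ := (hc.and_eventually h1).exists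
    apply hi2
    obtain ⟨c, hc⟩ := hi1
    simp only [hH, hc]
    rw [inner_smul_right, real_inner_self_eq_norm_sq, smul_smul, mul_comm, sub_self]
  refine ⟨⟪v₀, ctr F G v₀ d₀⟫ / ‖v₀‖ ^ 2, ?_⟩
  have hn : ‖v₀‖ ^ 2 ≠ 0 := pow_ne_zero _ (norm_ne_zero_iff.2 hv0)
  have h3 : ‖v₀‖ ^ 2 • ctr F G v₀ d₀ = ⟪v₀, ctr F G v₀ d₀⟫ • v₀ := sub_eq_zero.1 hz
  have h4 : ctr F G v₀ d₀ = (‖v₀‖ ^ 2)⁻¹ • (‖v₀‖ ^ 2 • ctr F G v₀ d₀) := by
    rw [smul_smul, inv_mul_cancel₀ hn, one_smul]
  rw [h3, smul_smul] at h4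
  rw [div_eq_inv_mul]
  exact h4

/-- In every three-dimensional space through `v` there is a plane centred at `v`. -/
theorem exists_cen (hP : Planar F G) (hF : IsGauge F) (hG : IsGauge G) {v w₁ w₂ : E}
    (h : LinearIndependent ℝ ![v, w₁, w₂]) :
    ∃ s t : ℝ, (s, t) ≠ 0 ∧ LinearIndependent ℝ ![v, s • w₁ + t • w₂] ∧
      Cen F G v (s • w₁ + t • w₂) := by
  have hv0 : v ≠ 0 := by
    have := h.ne_zero 0
    simpa using this
  have hind : ∀ s t : ℝ, (s, t) ≠ 0 → LinearIndependent ℝ ![v, s • w₁ + t • w₂] := by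
    intro s t hst
    rw [LinearIndependent.pair_iff]
    intro x y hxy
    rw [Fintype.linearIndependent_iff] at h
    have h1 := h ![x, y * s, y * t] (by
      rw [← hxy]
      simp [Fin.sum_univ_three]
      module)
    have hx := h1 0
    have h2 := h1 1
    have h3 := h1 2
    simp at hx h2 h3
    refine ⟨hx, ?_⟩
    by_contra hy
    apply hst
    have hs : s = 0 := by rcases h2 with h | h; · exact absurd h hy
                          · exact h
    have ht : t = 0 := by rcases h3 with h | h; · exact absurd h hy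
                          · exact h
    rw [hs, ht]; rfl
  set D : ℝ → E := fun θ => Real.cos θ • w₁ + Real.sin θ • w₂ with hD
  have hDc : Continuous D := by rw [hD]; fun_prop
  have hDi : ∀ θ, LinearIndependent ℝ ![v, D θ] := by
    intro θ
    apply hind
    intro h0
    rw [Prod.mk_eq_zero] at h0
    have := Real.sin_sq_add_cos_sq θ
    rw [h0.1, h0.2] at this
    norm_num at this
  set Q : ℝ → E := fun θ => ‖v‖ ^ 2 • D θ - ⟪v, D θ⟫ • v with hQ
  set g : ℝ → ℝ := fun θ => ⟪ctr F G v (D θ), Q θ⟫ with hg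
  have hgc : Continuous g := by
    rw [continuous_iff_continuousAt]
    intro θ
    have h1 : ContinuousAt (fun θ => ctr F G v (D θ)) θ := by
      have h2 : ContinuousAt (fun θ => (v, D θ)) θ := continuousAt_const.prodMk hDc.continuousAt
      exact ContinuousAt.comp (x := θ) (f := fun θ => (v, D θ)) (g := fun p : E × E => ctr F G p.1 p.2)
        (ctr_cont hP hF hG (hDi θ)) h2
    have h3 : Continuous Q := by rw [hQ]; fun_prop
    exact h1.inner h3.continuousAt
  have hodd : ∀ θ, g (θ + Real.pi) = - g θ := by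
    intro θ
    have e1 : D (θ + Real.pi) = -D θ := by
      simp only [hD, Real.cos_add_pi, Real.sin_add_pi]
      module
    have e2 : ctr F G v (D (θ + Real.pi)) = ctr F G v (D θ) := by
      apply ctr_congr
      rw [e1]
      have := span_smul (a := v) (b := D θ) (s := 1) (t := -1) (c := 0) one_ne_zero (by norm_num)
      simpa using this
    have e3 : Q (θ + Real.pi) = - Q θ := by
      simp only [hQ]
      rw [e1, inner_neg_right]
      module
    simp only [hg]
    rw [e2, e3, inner_neg_right]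
  obtain ⟨θ, -, hθ⟩ : ∃ θ ∈ Set.univ, g θ = 0 := by
    have h0 := hodd 0
    rw [zero_add] at h0
    rcases le_total (g 0) 0 with h1 | h1
    · have := intermediate_value_univ 0 Real.pi hgc
      obtain ⟨θ, hθ⟩ := this (⟨h1, by linarith⟩ : (0 : ℝ) ∈ Icc (g 0) (g Real.pi))
      exact ⟨θ, mem_univ _, hθ⟩
    · have := intermediate_value_univ Real.pi 0 hgc
      obtain ⟨θ, hθ⟩ := this (⟨by linarith, h1⟩ : (0 : ℝ) ∈ Icc (g Real.pi) (g 0))
      exact ⟨θ, mem_univ _, hθ⟩
  refine ⟨Real.cos θ, Real.sin θ, ?_, hDi θ, ?_⟩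
  · intro h0
    rw [Prod.mk_eq_zero] at h0
    have := Real.sin_sq_add_cos_sq θ
    rw [h0.1, h0.2] at this
    norm_num at this
  · obtain ⟨α, β, hαβ⟩ := Submodule.mem_span_pair.1 (ctr_mem F G v (D θ))
    have hvQ : ⟪v, Q θ⟫ = 0 := by
      simp only [hQ]
      rw [inner_sub_right, inner_smul_right, inner_smul_right, real_inner_self_eq_norm_sq]
      ring
    have hn : ‖v‖ ^ 2 ≠ 0 := pow_ne_zero _ (norm_ne_zero_iff.2 hv0)
    have hQ0 : Q θ ≠ 0 := by
      intro h0
      have h1 := LinearIndependent.pair_iff.1 (hDi θ) (-⟪v, D θ⟫) (‖v‖ ^ 2) (by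
        simp only [hQ] at h0
        rw [← h0]; module)
      exact hn h1.2
    have hDQ : ⟪D θ, Q θ⟫ ≠ 0 := by
      have e : ‖v‖ ^ 2 * ⟪D θ, Q θ⟫ = ⟪Q θ, Q θ⟫ := by
        have : Q θ = ‖v‖ ^ 2 • D θ - ⟪v, D θ⟫ • v := rfl
        nth_rewrite 2 [this]
        rw [inner_sub_left, inner_smul_left, inner_smul_left, hvQ]
        simp
      intro h0
      rw [h0, mul_zero] at e
      exact hQ0 (inner_self_eq_zero.1 e.symm)
    have hβ : β = 0 := by
      have : g θ = β * ⟪D θ, Q θ⟫ := by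
        simp only [hg]
        rw [← hαβ, inner_add_left, inner_smul_left, inner_smul_left, hvQ]
        simp
      rw [hθ] at this
      rcases mul_eq_zero.1 this.symm with h | h
      · exact h
      · exact absurd h hDQ
    refine ⟨α, ?_⟩
    show ctr F G v (D θ) = α • v
    rw [← hαβ, hβ, zero_smul, add_zero]

end Inner

section Data

variable {E : Type*} [NormedAddCommGroup E] [NormedSpace ℝ E] {F G : E → ℝ}

/-- For a plane centred at `v`, the homothety is determined by the values of `F`, `G` at `±v`. -/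
theorem Rel.cen_data {S : Submodule ℝ E} {a l : ℝ} (hF : IsGauge F) (hG : IsGauge G) {v : E}
    (hv : v ≠ 0) (hvS : v ∈ S) (h : Rel F G S (a • v) l) :
    a * G v + l = G v / F v ∧ l - a * G (-v) = G (-v) / F (-v) := by
  have hl := h.2.1
  have hnv : -v ≠ 0 := neg_ne_zero.2 hv
  have hFv := hF.pos v hv
  have hGv := hG.pos v hv
  have hFn := hF.pos _ hnv
  have hGn := hG.pos _ hnv
  have h0 : G (-(l⁻¹ • a • v)) ≤ 1 := h.symm.F_le_one hF
  constructor
  · have h1 := h.map hF hG hvS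
    have e1 : G v • a • v + l • v = (a * G v + l) • v := by module
    rw [e1] at h1
    have hμ : 0 ≤ a * G v + l := by
      rcases le_total 0 a with ha | ha
      · positivity
      · have e2 : -(l⁻¹ • a • v) = (-(l⁻¹ * a)) • v := by module
        have h3 : 0 ≤ -(l⁻¹ * a) := by
          have : l⁻¹ * a ≤ 0 := mul_nonpos_of_nonneg_of_nonpos (inv_nonneg.2 hl.le) ha
          linarith
        rw [e2, hG.hom _ _ h3] at h0
        have h4 : l * (-(l⁻¹ * a) * G v) ≤ l * 1 := mul_le_mul_of_nonneg_left h0 hl.le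
        have e3 : l * (-(l⁻¹ * a) * G v) = -(a * G v) := by field_simp
        rw [e3, mul_one] at h4
        linarith
    rw [hF.hom _ _ hμ] at h1
    rw [eq_div_iff hFv.ne']
    exact h1
  · have h1 := h.map hF hG (S.neg_mem hvS)
    have e1 : G (-v) • a • v + l • -v = (l - a * G (-v)) • -v := by module
    rw [e1] at h1
    have hμ : 0 ≤ l - a * G (-v) := by
      rcases le_total a 0 with ha | ha
      · nlinarith
      · have e2 : -(l⁻¹ • a • v) = (l⁻¹ * a) • -v := by module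
        have h3 : 0 ≤ l⁻¹ * a := mul_nonneg (inv_nonneg.2 hl.le) ha
        rw [e2, hG.hom _ _ h3] at h0
        have h4 : l * (l⁻¹ * a * G (-v)) ≤ l * 1 := mul_le_mul_of_nonneg_left h0 hl.le
        have e3 : l * (l⁻¹ * a * G (-v)) = a * G (-v) := by field_simp
        rw [e3, mul_one] at h4
        linarith
    rw [hF.hom _ _ hμ] at h1
    rw [eq_div_iff hFn.ne']
    exact h1

/-- If the plane is centred at `v` and the ratio is the same at `v` and `-v` then the translation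
part vanishes. -/
theorem Rel.cen_zero {S : Submodule ℝ E} {a l : ℝ} (hF : IsGauge F) (hG : IsGauge G) {v : E}
    (hv : v ≠ 0) (hvS : v ∈ S) (h : Rel F G S (a • v) l)
    (hr : F v / G v = F (-v) / G (-v)) : a = 0 := by
  obtain ⟨h1, h2⟩ := h.cen_data hF hG hv hvS
  have hnv : -v ≠ 0 := neg_ne_zero.2 hv
  have hGv := hG.pos v hv
  have hGn := hG.pos _ hnv
  have e : G v / F v = G (-v) / F (-v) := by
    rw [← inv_div, hr, inv_div]
  have h3 : a * (G v + G (-v)) = 0 := by linarith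
  rcases mul_eq_zero.1 h3 with h | h
  · exact h
  · linarith

/-- If the translation part vanishes then the ratio is constant on the section. -/
theorem Rel.zero_const {S : Submodule ℝ E} {l : ℝ} (hF : IsGauge F) (hG : IsGauge G)
    (h : Rel F G S 0 l) {z : E} (hz : z ∈ S) : l * F z = G z := by
  have h1 := h.map hF hG hz
  rwa [smul_zero, zero_add, hF.hom _ _ h.2.1.le] at h1

theorem Rel.of_const {S : Submodule ℝ E} {l : ℝ} (hl : 0 < l) (hF : IsGauge F)
    (h : ∀ z ∈ S, l * F z = G z) : Rel F G S 0 l := by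
  refine ⟨S.zero_mem, hl, fun z hz => ?_⟩
  rw [zero_add, hF.hom _ _ hl.le, h z hz]

theorem Rel.restrict {S W : Submodule ℝ E} (hWS : W ≤ S) {x : E} {l : ℝ} (h : Rel F G S x l)
    (hx : x ∈ W) : Rel F G W x l :=
  ⟨hx, h.2.1, fun z hz => h.2.2 z (hWS hz)⟩

/-- **Full pencil.** If every plane through `v` is centred at `v` then the bodies are
homothetic. -/
theorem full_pencil (hP : Planar F G) (hF : IsGauge F) (hG : IsGauge G)
    (h2 : 2 ≤ Module.finrank ℝ E) {v : E} (hv : v ≠ 0)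
    (h : ∀ d, LinearIndependent ℝ ![v, d] → Cen F G v d) :
    ∃ (x : E) (l : ℝ), Rel F G ⊤ x l := by
  have hnv : -v ≠ 0 := neg_ne_zero.2 hv
  have hGv := hG.pos v hv
  have hGn := hG.pos _ hnv
  obtain ⟨d₀, hd₀⟩ : ∃ d : E, LinearIndependent ℝ ![v, d] := by
    by_contra hcon
    push Not at hcon
    have : ∀ d : E, ∃ c : ℝ, c • v = d := by
      intro d
      by_contra hd
      push Not at hd
      apply hcon d
      rw [LinearIndependent.pair_iff' hv]
      exact hd
    have h3 : Module.finrank ℝ E ≤ 1 := finrank_le_one v this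
    omega
  set a : ℝ := (G v / F v - G (-v) / F (-v)) / (G v + G (-v)) with ha
  set l : ℝ := G v / F v - a * G v with hl
  have key : ∀ d, LinearIndependent ℝ ![v, d] → Rel F G (Submodule.span ℝ {v, d}) (a • v) l := by
    intro d hd
    obtain ⟨c, hc⟩ := h d hd
    have hr := hP.rel hd
    rw [hc] at hr
    obtain ⟨e1, e2⟩ := hr.cen_data hF hG hv (Submodule.subset_span (by simp))
    have hca : c = a := by
      rw [ha, eq_div_iff (by positivity)]
      linarith
    have hla : rat F G v d = l := by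
      rw [hl, ← hca]; linarith
    rwa [hca, hla] at hr
  refine ⟨a • v, l, Submodule.mem_top, (key d₀ hd₀).2.1, fun z _ => ?_⟩
  by_cases hz : LinearIndependent ℝ ![v, z]
  · exact (key z hz).2.2 z (Submodule.subset_span (by simp))
  · rw [LinearIndependent.pair_iff' hv] at hz
    push Not at hz
    obtain ⟨c, rfl⟩ := hz
    exact (key d₀ hd₀).2.2 _ (Submodule.smul_mem _ _ (Submodule.subset_span (by simp)))

theorem Planar.of_sub (h3 : 3 ≤ Module.finrank ℝ E)
    (h : ∀ V : Submodule ℝ E, 2 ≤ Module.finrank ℝ V → Module.finrank ℝ V < Module.finrank ℝ E →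
      ∃ (x : E) (l : ℝ), Rel F G V x l) : Planar F G := fun S hS => h S (by omega) (by omega)

end Data

end Pool.Agent.H63.Star
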